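import Pool.Agent.H50.L.LI.D
import Pool.Agent.H50.L.CI.Quad

/-! # Duality: a law with given moments and a large mass at zero -/

set_option autoImplicit false

namespace Q167.LI

open Finset Polynomial Q198.CI

theorem reduce {N m : ℕ} (hN : 2 * m ≤ N) {b : ℕ → ℝ} (hb : ∀ x, 0 ≤ b x) {δ : ℝ}
    (hext : ∀ A : Finset ℕ, A.card = m → (∀ a ∈ A, 1 ≤ a) →
      δ * (∏ a ∈ A, ((X - C (a : ℝ)) * (X - C ((a : ℝ) + 1)))).eval 0 ≤
        ∑ x ∈ range (N + 1), b x *
          (∏ a ∈ A, ((X - C (a : ℝ)) * (X - C ((a : ℝ) + 1)))).eval (x : ℝ)) :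
    ∀ f : ℝ[X], f.natDegree ≤ 2 * m → (∀ x : ℕ, x ≤ N → 0 ≤ f.eval (x : ℝ)) →
      δ * f.eval 0 ≤ ∑ x ∈ range (N + 1), b x * f.eval (x : ℝ) := by
  classical
  have main : ∀ n : ℕ, ∀ f : ℝ[X], f.natDegree ≤ 2 * m →
      (∀ x : ℕ, x ≤ N → 0 ≤ f.eval (x : ℝ)) →
      ((range (N + 1)).filter (fun x : ℕ => f.eval (x : ℝ) ≠ 0)).card = n →
      δ * f.eval 0 ≤ ∑ x ∈ range (N + 1), b x * f.eval (x : ℝ) := by
    intro n
    induction n using Nat.strong_induction_on with
    | _ n ih =>
      intro f hfd hf hn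
      by_cases h0 : f.eval 0 = 0
      · rw [h0, mul_zero]
        exact sum_nonneg fun x hx => mul_nonneg (hb x)
          (hf x (by have := mem_range.1 hx; omega))
      have h0pos : 0 < f.eval 0 := by
        have h1 := hf 0 (Nat.zero_le _)
        rw [Nat.cast_zero] at h1
        exact lt_of_le_of_ne h1 (Ne.symm h0)
      set Z : Finset ℕ := (range (N + 1)).filter (fun x : ℕ => f.eval (x : ℝ) = 0) with hZd
      have hZN : Z ⊆ range (N + 1) := filter_subset _ _
      by_cases hZ : Z.card < 2 * m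
      · obtain ⟨h, hd, hhz, hneg, hpos⟩ := direction hN hZN hZ
        have hhz' : ∀ x : ℕ, x ≤ N → f.eval (x : ℝ) = 0 → h.eval (x : ℝ) = 0 := fun x hx hx0 =>
          hhz x (mem_filter.2 ⟨mem_range.2 (by omega), hx0⟩)
        obtain ⟨t₁, ht₁, hp₁, hc₁⟩ := move hf hhz' hneg
        obtain ⟨t₂, ht₂, hp₂, hc₂⟩ := move (h := -h) hf
          (fun x hx hx0 => by rw [eval_neg, hhz' x hx hx0, neg_zero])
          (by
            obtain ⟨x, hx, hx1⟩ := hpos
            exact ⟨x, hx, by rw [eval_neg]; linarith⟩)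
        have hdeg : ∀ (t : ℝ) (k : ℝ[X]), k.natDegree ≤ 2 * m →
            (f + C t * k).natDegree ≤ 2 * m := fun t k hk =>
          (natDegree_add_le _ _).trans (max_le hfd ((natDegree_C_mul_le _ _).trans hk))
        have i1 := ih _ (hn ▸ hc₁) _ (hdeg t₁ h hd) hp₁ rfl
        have i2 := ih _ (hn ▸ hc₂) _ (hdeg t₂ (-h) (by rw [natDegree_neg]; exact hd)) hp₂ rfl
        have e1 : ∀ t : ℝ, ∑ x ∈ range (N + 1), b x * (f + C t * h).eval (x : ℝ) =
            ∑ x ∈ range (N + 1), b x * f.eval (x : ℝ) +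
              t * ∑ x ∈ range (N + 1), b x * h.eval (x : ℝ) := by
          intro t
          rw [mul_sum, ← sum_add_distrib]
          refine sum_congr rfl fun x _ => ?_
          rw [eval_add, eval_mul, eval_C]
          ring
        have e2 : (f + C t₂ * -h) = f + C (-t₂) * h := by
          rw [C_neg]
          ring
        rw [e2, e1, eval_add, eval_mul, eval_C] at i2
        rw [e1, eval_add, eval_mul, eval_C] at i1
        have i3 := mul_le_mul_of_nonneg_left i1 ht₂.le
        have i4 := mul_le_mul_of_nonneg_left i2 ht₁.le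
        have i5 : (t₁ + t₂) * (δ * f.eval 0) ≤
            (t₁ + t₂) * ∑ x ∈ range (N + 1), b x * f.eval (x : ℝ) := by
          nlinarith
        exact le_of_mul_le_mul_left i5 (by linarith)
      · push Not at hZ
        have hf0 : f ≠ 0 := fun h => h0 (by rw [h, eval_zero])
        set P : ℝ[X] := ∏ z ∈ Z, (X - C (z : ℝ)) with hP
        have hPd : P.natDegree = Z.card := by
          rw [hP, natDegree_finsetProd_X_sub_C_eq_card]
        have hdvd : P ∣ f := by
          have h1 : ((Z.val.map (fun z : ℕ => (z : ℝ))).map fun a => X - C a).prod ∣ f := by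
            rw [Multiset.prod_X_sub_C_dvd_iff_le_roots hf0, Multiset.le_iff_subset]
            · intro a ha
              rw [Multiset.mem_map] at ha
              obtain ⟨z, hz, rfl⟩ := ha
              rw [mem_roots hf0]
              have h5 : z ∈ Z := hz
              rw [hZd, mem_filter] at h5
              exact h5.2
            · exact Z.nodup.map Nat.cast_injective
          rw [Multiset.map_map] at h1
          exact h1
        have hZc : Z.card = 2 * m := by
          have h1 := natDegree_le_of_dvd hdvd hf0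
          omega
        obtain ⟨Q, hQ⟩ := hdvd
        have hP0 : P ≠ 0 := fun h => hf0 (by rw [hQ, h, zero_mul])
        have hQ0 : Q ≠ 0 := fun h => hf0 (by rw [hQ, h, mul_zero])
        have hQd : Q.natDegree = 0 := by
          have h1 : f.natDegree = P.natDegree + Q.natDegree := by
            rw [hQ, natDegree_mul hP0 hQ0]
          omega
        obtain ⟨c, hc⟩ : ∃ c : ℝ, Q = C c := ⟨Q.coeff 0, eq_C_of_natDegree_eq_zero hQd⟩
        have hfe : ∀ x : ℝ, f.eval x = c * P.eval x := by
          intro x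
          rw [hQ, hc, eval_mul, eval_C, mul_comm]
        have hPe : ∀ x : ℝ, P.eval x = ∏ z ∈ Z, (x - (z : ℝ)) := by
          intro x
          rw [hP, eval_prod]
          simp
        have hZ1 : ∀ z ∈ Z, 1 ≤ z := by
          intro z hz
          by_contra h1
          have h2 : z = 0 := by omega
          apply h0
          have h3 := (mem_filter.1 hz).2
          rw [h2, Nat.cast_zero] at h3
          exact h3
        have hP0pos : 0 < P.eval 0 := by
          rw [hPe]
          apply prod_neg_even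
          · intro z hz
            exact_mod_cast (hZ1 z hz)
          · rw [hZc]
            exact even_two_mul m
        have hcpos : 0 < c := by
          rw [hfe] at h0pos
          exact pos_of_mul_pos_left h0pos hP0pos.le
        obtain ⟨A, hAZ, hAc, hAP⟩ := pairing N m Z hZN hZc (by
          intro x hx
          have h1 := hf x hx
          rw [hfe, hPe] at h1
          exact nonneg_of_mul_nonneg_right h1 hcpos)
        have h2 := hext A hAc (fun a ha => hZ1 a (hAZ ha))
        rw [← hAP, ← hP] at h2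
        have h3 := mul_le_mul_of_nonneg_left h2 hcpos.le
        rw [hfe]
        calc δ * (c * P.eval 0) = c * (δ * P.eval 0) := by ring
          _ ≤ c * ∑ x ∈ range (N + 1), b x * P.eval (x : ℝ) := h3
          _ = _ := by
            rw [mul_sum]
            refine sum_congr rfl fun x _ => ?_
            rw [hfe]
            ring
  intro f hfd hf
  exact main _ f hfd hf rfl

/-- duality -/
theorem dual {N K : ℕ} {b : ℕ → ℝ} (hb1 : ∑ x ∈ range (N + 1), b x = 1) {δ : ℝ}
    (hδ0 : 0 ≤ δ) (hδ1 : δ < 1)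
    (hd : ∀ f : ℝ[X], f.natDegree ≤ K → (∀ x : ℕ, x ≤ N → 0 ≤ f.eval (x : ℝ)) →
      δ * f.eval 0 ≤ ∑ x ∈ range (N + 1), b x * f.eval (x : ℝ)) :
    ∃ q : ℕ → ℝ, (∀ x, 0 ≤ q x) ∧ (∀ j ≤ K, ∑ x ∈ range (N + 1), q x * (x.choose j : ℝ) =
      ∑ x ∈ range (N + 1), b x * (x.choose j : ℝ)) ∧ δ ≤ q 0 := by
  classical
  have h1δ : 0 < 1 - δ := by linarith
  set Φ : (Fin (N + 1) → ℝ) →ₗ[ℝ] (Fin (K + 1) → ℝ) :=
    { toFun := fun q j => ∑ x : Fin (N + 1), q x * ((x : ℕ).choose (j : ℕ) : ℝ)
      map_add' := by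
        intro q q'
        funext j
        simp only [Pi.add_apply, add_mul, sum_add_distrib]
      map_smul' := by
        intro c q
        funext j
        simp only [Pi.smul_apply, smul_eq_mul, RingHom.id_apply, mul_sum, mul_assoc] } with hΦ
  have hΦc : Continuous Φ := LinearMap.continuous_of_finiteDimensional Φ
  set s : Set (Fin (K + 1) → ℝ) := Φ '' stdSimplex ℝ (Fin (N + 1)) with hs
  have hs1 : Convex ℝ s := (convex_stdSimplex ℝ (Fin (N + 1))).linear_image Φ
  have hs2 : IsClosed s := ((isCompact_stdSimplex ℝ (Fin (N + 1))).image hΦc).isClosed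
  set v : Fin (K + 1) → ℝ := fun j => (∑ x ∈ range (N + 1), b x * (x.choose (j : ℕ) : ℝ) -
    δ * ((0 : ℕ).choose (j : ℕ) : ℝ)) / (1 - δ) with hv
  by_cases hvs : v ∈ s
  · obtain ⟨q₀, hq₀, hq₁⟩ := hvs
    refine ⟨fun x => if h : x < N + 1 then (1 - δ) * q₀ ⟨x, h⟩ + (if x = 0 then δ else 0) else 0,
      ?_, ?_, ?_⟩
    · intro x
      dsimp only
      split_ifs with h1 h2
      · have := mul_nonneg h1δ.le (hq₀.1 ⟨x, h1⟩)
        linarith
      · have := mul_nonneg h1δ.le (hq₀.1 ⟨x, h1⟩)
        linarith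
      · exact le_rfl
    · intro j hj
      rw [sum_range]
      have e1 : ∀ x : Fin (N + 1), (if h : (x : ℕ) < N + 1 then (1 - δ) * q₀ ⟨x, h⟩ +
          (if (x : ℕ) = 0 then δ else 0) else 0) * ((x : ℕ).choose j : ℝ) =
          (1 - δ) * (q₀ x * ((x : ℕ).choose j : ℝ)) +
            (if x = 0 then δ * ((0 : ℕ).choose j : ℝ) else 0) := by
        intro x
        rw [dif_pos x.2]
        by_cases hx : x = 0
        · subst hx
          simp
          ring
        · have hx' : ¬ ((x : ℕ) = 0) := fun h => hx (Fin.ext h)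
          rw [if_neg hx', if_neg hx]
          ring
      rw [sum_congr rfl fun x _ => e1 x, sum_add_distrib, ← mul_sum, sum_ite_eq' univ (0 : Fin (N + 1)),
        if_pos (mem_univ _)]
      have e2 := congrFun hq₁ ⟨j, by omega⟩
      simp only [hΦ, LinearMap.coe_mk, AddHom.coe_mk, hv] at e2
      rw [e2]
      field_simp
      ring
    · dsimp only
      rw [dif_pos (Nat.succ_pos N), if_pos rfl]
      have := mul_nonneg h1δ.le (hq₀.1 ⟨0, Nat.succ_pos N⟩)
      linarith
  · exfalso
    obtain ⟨ℓ, u, hℓ1, hℓ2⟩ := geometric_hahn_banach_closed_point hs1 hs2 hvs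
    set L : Fin (K + 1) → ℝ := fun j => ℓ (fun i => if j = i then 1 else 0) with hL
    have hℓ : ∀ y : Fin (K + 1) → ℝ, ℓ y = ∑ j, y j * L j := by
      intro y
      have := LinearMap.pi_apply_eq_sum_univ (ℓ : (Fin (K + 1) → ℝ) →ₗ[ℝ] ℝ) y
      simpa using this
    set f : ℝ[X] := C u - ∑ j : Fin (K + 1), C (L j) *
      (C ((((j : ℕ).factorial : ℝ))⁻¹) * descPochhammer ℝ (j : ℕ)) with hf
    have hfe : ∀ x : ℕ, f.eval (x : ℝ) = u - ∑ j : Fin (K + 1), (x.choose (j : ℕ) : ℝ) * L j := by
      intro x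
      rw [hf, eval_sub, eval_C, eval_finsetSum]
      congr 1
      refine sum_congr rfl fun j _ => ?_
      rw [eval_mul, eval_C, ← choose_eq_eval]
      ring
    have hfd : f.natDegree ≤ K := by
      rw [hf]
      refine (natDegree_sub_le _ _).trans (max_le (by simp) ?_)
      refine natDegree_sum_le_of_forall_le _ _ fun j _ => ?_
      refine (natDegree_C_mul_le _ _).trans ((natDegree_choose (j : ℕ)).trans ?_)
      have := j.2
      omega
    have hfpos : ∀ x : ℕ, x ≤ N → 0 ≤ f.eval (x : ℝ) := by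
      intro x hx
      have h1 : Φ (Pi.single (⟨x, by omega⟩ : Fin (N + 1)) 1) ∈ s :=
        ⟨_, single_mem_stdSimplex ℝ _, rfl⟩
      have h2 := hℓ1 _ h1
      rw [hℓ] at h2
      rw [hfe]
      have h3 : ∀ j : Fin (K + 1), Φ (Pi.single (⟨x, by omega⟩ : Fin (N + 1)) 1) j =
          (x.choose (j : ℕ) : ℝ) := by
        intro j
        simp only [hΦ, LinearMap.coe_mk, AddHom.coe_mk]
        rw [sum_eq_single (⟨x, by omega⟩ : Fin (N + 1))]
        · simp
        · intro y _ hy
          rw [Pi.single_eq_of_ne hy, zero_mul]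
        · intro h
          exact absurd (mem_univ _) h
      have h4 : ∑ j : Fin (K + 1), (x.choose (j : ℕ) : ℝ) * L j =
          ∑ j : Fin (K + 1), Φ (Pi.single (⟨x, by omega⟩ : Fin (N + 1)) 1) j * L j :=
        sum_congr rfl fun j _ => by rw [h3]
      rw [h4]
      linarith
    have h1 := hd f hfd hfpos
    have h0 : f.eval 0 = u - ∑ j : Fin (K + 1), ((0 : ℕ).choose (j : ℕ) : ℝ) * L j := by
      have := hfe 0
      rw [Nat.cast_zero] at this
      exact this
    have h2 : ∑ x ∈ range (N + 1), b x * f.eval (x : ℝ) =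
        u - ∑ j : Fin (K + 1), (∑ x ∈ range (N + 1), b x * (x.choose (j : ℕ) : ℝ)) * L j := by
      have e1 : ∀ x ∈ range (N + 1), b x * f.eval (x : ℝ) =
          b x * u - ∑ j : Fin (K + 1), b x * (x.choose (j : ℕ) : ℝ) * L j := by
        intro x _
        rw [hfe, mul_sub, mul_sum]
        congr 1
        refine sum_congr rfl fun j _ => ?_
        ring
      rw [sum_congr rfl e1, sum_sub_distrib, ← sum_mul, hb1, one_mul, sum_comm]
      congr 1
      refine sum_congr rfl fun j _ => ?_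
      rw [sum_mul]
    have h3 : ℓ v * (1 - δ) = ∑ j : Fin (K + 1),
        (∑ x ∈ range (N + 1), b x * (x.choose (j : ℕ) : ℝ)) * L j -
        δ * ∑ j : Fin (K + 1), ((0 : ℕ).choose (j : ℕ) : ℝ) * L j := by
      rw [hℓ, sum_mul, mul_sum, ← sum_sub_distrib]
      refine sum_congr rfl fun j _ => ?_
      simp only [hv]
      field_simp
    have h4 : u * (1 - δ) < ℓ v * (1 - δ) := mul_lt_mul_of_pos_right hℓ2 h1δ
    rw [h0, h2] at h1
    nlinarith

/-- the sharp law -/
theorem exists_q_sharp {N m : ℕ} (hN : 2 * m ≤ N) {p θ δ : ℝ} (hp0 : 0 < p) (hp1 : p < 1)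
    (hθ : 0 ≤ θ) (hθ2 : (1 - 2 * p) ^ 2 * m ≤ θ ^ 2 * (p * (1 - p) * (N - m + 1)))
    (hδ0 : 0 ≤ δ) (hδ1 : δ < 1)
    (hδ : δ * ((1 + m / (N - m + 1)) * KK (N + 1) m (p / (1 - p))) ≤ 1 - θ - m / (N - m + 1)) :
    ∃ q : ℕ → ℝ, (∀ x, 0 ≤ q x) ∧ (∀ j ≤ 2 * m, ∑ x ∈ range (N + 1), q x * (x.choose j : ℝ) =
      (N.choose j : ℝ) * p ^ j) ∧ δ ≤ q 0 := by
  have hm : m ≤ N := by omega
  have hb : ∀ x, 0 ≤ bi N p x := fun x => bi_nonneg hp0.le hp1.le x
  obtain ⟨q, h1, h2, h3⟩ := dual (N := N) (K := 2 * m) (b := bi N p) (bi_sum N p) hδ0 hδ1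
    (reduce hN hb (by
      intro A hAc hA1
      set g : ℝ[X] := ∏ a ∈ A, (X - C ((a : ℝ) + 1)) with hg
      have hgd : g.natDegree ≤ m := by
        rw [hg, natDegree_finsetProd_X_sub_C_eq_card]
        exact hAc.le
      have hge : ∀ x : ℝ, g.eval x = ∏ a ∈ A, (x - ((a : ℝ) + 1)) := by
        intro x
        rw [hg, eval_prod]
        simp
      have hPe : ∀ x : ℝ, (∏ a ∈ A, ((X - C (a : ℝ)) * (X - C ((a : ℝ) + 1)))).eval x =
          g.eval x * g.eval (x + 1) := by
        intro x
        rw [hge, hge, eval_prod, ← prod_mul_distrib]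
        refine prod_congr rfl fun a _ => ?_
        simp only [eval_mul, eval_sub, eval_X, eval_C]
        ring
      obtain ⟨Aq, hA0, hE, hC⟩ := key hm hp0 hp1 hθ hθ2 g hgd
      have h4 : g.eval 0 * g.eval (0 + 1) ≤ (g.eval 0) ^ 2 := by
        rw [hge, hge, ← prod_mul_distrib, ← prod_pow]
        apply prod_le_prod
        · intro a ha
          have : (0:ℝ) ≤ a := Nat.cast_nonneg a
          nlinarith
        · intro a ha
          have : (0:ℝ) ≤ a := Nat.cast_nonneg a
          nlinarith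
      rw [hPe]
      calc δ * (g.eval 0 * g.eval (0 + 1)) ≤ δ * (g.eval 0) ^ 2 :=
            mul_le_mul_of_nonneg_left h4 hδ0
        _ ≤ δ * ((1 + m / (N - m + 1)) * KK (N + 1) m (p / (1 - p)) * Aq) :=
            mul_le_mul_of_nonneg_left hC hδ0
        _ = δ * ((1 + m / (N - m + 1)) * KK (N + 1) m (p / (1 - p))) * Aq := by ring
        _ ≤ (1 - θ - m / (N - m + 1)) * Aq := mul_le_mul_of_nonneg_right hδ hA0
        _ ≤ _ := hE
        _ = _ := by
          refine sum_congr rfl fun x _ => ?_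
          rw [hPe]
          rfl))
  refine ⟨q, h1, fun j hj => ?_, h3⟩
  rw [h2 j hj, bi_moment N p j (by omega)]

end Q167.LI
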