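import Pool.Agent.H50.L.LI.F
import Pool.Agent.H50.L.CI.Dyad

/-! # Estimates, and the threshold function -/

set_option autoImplicit false

namespace Q167.LI

open Finset MeasureTheory Filter Topology Q198.CI

lemma KK_le {N m : ℕ} {r t : ℝ} (hr : 0 ≤ r) (ht : 0 < t) (ht1 : t ≤ 1) :
    KK N m r ≤ (1 / t) ^ m * Real.exp (t * (N * r)) := by
  unfold KK
  have h1 : ∀ j ∈ range (m + 1), (N.choose j : ℝ) * r ^ j ≤
      (1 / t) ^ m * ((t * (N * r)) ^ j / (j.factorial : ℝ)) := by
    intro j hj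
    rw [mem_range] at hj
    have h2 : (N.choose j : ℝ) ≤ (N : ℝ) ^ j / (j.factorial : ℝ) := Nat.choose_le_pow_div j N
    have h3 : (N.choose j : ℝ) * r ^ j ≤ ((N : ℝ) ^ j / (j.factorial : ℝ)) * r ^ j :=
      mul_le_mul_of_nonneg_right h2 (by positivity)
    refine h3.trans ?_
    have h4 : (1 : ℝ) ≤ (1 / t) ^ m * t ^ j := by
      have h5 : (1 / t) ^ m = (1 / t) ^ (m - j) * (1 / t) ^ j := by
        rw [← pow_add]
        congr 1
        omega
      have h6 : (1 / t) ^ j * t ^ j = 1 := by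
        rw [← mul_pow, one_div_mul_cancel ht.ne', one_pow]
      have h7 : (1 : ℝ) ≤ (1 / t) ^ (m - j) := one_le_pow₀ (by rw [le_div_iff₀ ht]; linarith)
      rw [h5, mul_assoc, h6, mul_one]
      exact h7
    calc ((N : ℝ) ^ j / (j.factorial : ℝ)) * r ^ j
        = 1 * ((N * r) ^ j / (j.factorial : ℝ)) := by rw [mul_pow]; ring
      _ ≤ ((1 / t) ^ m * t ^ j) * ((N * r) ^ j / (j.factorial : ℝ)) :=
          mul_le_mul_of_nonneg_right h4 (by positivity)
      _ = _ := by rw [mul_pow t]; ring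
  refine (sum_le_sum h1).trans ?_
  rw [← mul_sum]
  exact mul_le_mul_of_nonneg_left (Real.sum_le_exp_of_nonneg (by positivity) _) (by positivity)

lemma fact_le : ∀ m : ℕ, 1 ≤ m →
    (m.factorial : ℝ) ≤ Real.exp 1 * m * (m / Real.exp 1) ^ m := by
  intro m hm
  induction m, hm using Nat.le_induction with
  | base =>
    have : Real.exp 1 ≠ 0 := (Real.exp_pos _).ne'
    simp only [Nat.factorial_one, Nat.cast_one, pow_one, mul_one]
    field_simp
    exact le_rfl
  | succ m hm ih =>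
    have hm' : (0:ℝ) < m := by exact_mod_cast hm
    have he : 0 < Real.exp 1 := Real.exp_pos _
    have h1 : Real.exp (1 / ((m : ℝ) + 1)) ≤ ((m : ℝ) + 1) / m := by
      have h2 := Real.add_one_le_exp (-(1 / ((m : ℝ) + 1)))
      have h3 : -(1 / ((m : ℝ) + 1)) + 1 = m / (m + 1) := by field_simp; ring
      rw [h3, Real.exp_neg] at h2
      have h4 : 0 < Real.exp (1 / ((m : ℝ) + 1)) := Real.exp_pos _
      rw [le_div_iff₀ hm']
      rw [div_le_iff₀ (by linarith), inv_mul_eq_div, le_div_iff₀ h4] at h2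
      linarith
    have h5 : Real.exp 1 ≤ (((m : ℝ) + 1) / m) ^ (m + 1) := by
      have h6 : Real.exp 1 = Real.exp (1 / ((m : ℝ) + 1)) ^ (m + 1) := by
        rw [← Real.exp_nat_mul]
        congr 1
        push_cast
        field_simp
      rw [h6]
      exact pow_le_pow_left₀ (Real.exp_pos _).le h1 _
    have h7 : Real.exp 1 * (m : ℝ) ^ (m + 1) ≤ ((m : ℝ) + 1) ^ (m + 1) := by
      rw [div_pow, le_div_iff₀ (by positivity)] at h5
      exact h5
    rw [Nat.factorial_succ]
    push_cast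
    calc ((m : ℝ) + 1) * (m.factorial : ℝ)
        ≤ ((m : ℝ) + 1) * (Real.exp 1 * m * (m / Real.exp 1) ^ m) :=
          mul_le_mul_of_nonneg_left ih (by positivity)
      _ = ((m : ℝ) + 1) * (Real.exp 1 * (m : ℝ) ^ (m + 1)) / Real.exp 1 ^ m := by
          rw [div_pow]
          ring
      _ ≤ ((m : ℝ) + 1) * ((m : ℝ) + 1) ^ (m + 1) / Real.exp 1 ^ m := by
          apply div_le_div_of_nonneg_right _ (by positivity)
          exact mul_le_mul_of_nonneg_left h7 (by positivity)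
      _ = _ := by
          rw [div_pow, pow_succ (Real.exp 1)]
          field_simp

lemma choose_mul_ge {N m : ℕ} (hm : 1 ≤ m) (hmN : m ≤ N) {ρ : ℝ} (hρ : 0 ≤ ρ) :
    (Real.exp 1 * (((N : ℝ) - m + 1) * ρ) / m) ^ m / (Real.exp 1 * m) ≤
      (N.choose m : ℝ) * ρ ^ m := by
  have hm' : (0:ℝ) < m := by exact_mod_cast hm
  have he : 0 < Real.exp 1 := Real.exp_pos _
  have h1 := fact_le m hm
  have h2 : (((N + 1 - m : ℕ) : ℝ)) ^ m ≤ (m.factorial : ℝ) * (N.choose m : ℝ) := by
    have h := Nat.pow_le_choose (α := ℝ) m N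
    rw [div_le_iff₀ (by exact_mod_cast Nat.factorial_pos m)] at h
    rw [mul_comm]
    exact_mod_cast h
  have h3 : ((N + 1 - m : ℕ) : ℝ) = (N : ℝ) - m + 1 := by
    rw [Nat.cast_sub (by omega)]
    push_cast
    ring
  rw [h3] at h2
  have hC : (0:ℝ) ≤ (N.choose m : ℝ) := Nat.cast_nonneg _
  have h4 : ((N : ℝ) - m + 1) ^ m ≤ (Real.exp 1 * m * (m / Real.exp 1) ^ m) * (N.choose m : ℝ) :=
    h2.trans (mul_le_mul_of_nonneg_right h1 hC)
  rw [div_le_iff₀ (by positivity)]
  calc (Real.exp 1 * (((N : ℝ) - m + 1) * ρ) / m) ^ m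
      = ((N : ℝ) - m + 1) ^ m * (ρ ^ m * (Real.exp 1 / m) ^ m) := by
        rw [← mul_pow, ← mul_pow]
        congr 1
        ring
    _ ≤ ((Real.exp 1 * m * (m / Real.exp 1) ^ m) * (N.choose m : ℝ)) *
        (ρ ^ m * (Real.exp 1 / m) ^ m) :=
        mul_le_mul_of_nonneg_right h4 (by positivity)
    _ = (N.choose m : ℝ) * ρ ^ m * (Real.exp 1 * m) *
        ((m / Real.exp 1) ^ m * (Real.exp 1 / m) ^ m) := by ring
    _ = _ := by
        rw [← mul_pow, div_mul_div_cancel₀ he.ne', div_self hm'.ne', one_pow, mul_one]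

lemma sum_ge_choose {I : Finset ℕ} {m : ℕ} {r : ℕ → ℝ} {ρ : ℝ} (hρ : 0 ≤ ρ)
    (hr : ∀ n ∈ I, ρ ≤ r n) :
    (I.card.choose m : ℝ) * ρ ^ m ≤ ∑ T ∈ I.powerset with T.card ≤ m, ∏ n ∈ T, r n := by
  classical
  have h1 : ∑ T ∈ powersetCard m I, ρ ^ m ≤ ∑ T ∈ powersetCard m I, ∏ n ∈ T, r n := by
    refine sum_le_sum fun T hT => ?_
    rw [mem_powersetCard] at hT
    rw [← hT.2, ← prod_const]
    exact prod_le_prod (fun n _ => hρ) fun n hn => hr n (hT.1 hn)
  rw [sum_const, card_powersetCard, nsmul_eq_mul] at h1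
  refine h1.trans (sum_le_sum_of_subset_of_nonneg ?_ ?_)
  · intro T hT
    rw [mem_powersetCard] at hT
    exact mem_filter.2 ⟨mem_powerset.2 hT.1, hT.2.le⟩
  · intro T hT _
    rw [mem_filter, mem_powerset] at hT
    exact prod_nonneg fun n hn => hρ.trans (hr n (hT.1 hn))

/-- the function `Λ` -/
noncomputable def Lam (a : ℝ) : ℝ := if a < 2 then a / 2 * Real.exp (2 / a - 1) else 1

/-- the rate `(a/2)(1 + log(2τ/a))` -/
noncomputable def rate (a τ : ℝ) : ℝ := a / 2 * (1 + Real.log (2 * τ / a))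

lemma rate_smul {a τ s : ℝ} (hs : 0 < s) : rate (s * a) (s * τ) = s * rate a τ := by
  unfold rate
  rw [show 2 * (s * τ) / (s * a) = 2 * τ / a by
    rw [show 2 * (s * τ) = s * (2 * τ) by ring]
    exact mul_div_mul_left _ _ hs.ne']
  ring

lemma Lam_ge_one {a : ℝ} (ha : 0 < a) : 1 ≤ Lam a := by
  unfold Lam
  split_ifs with h
  · have h1 := Real.add_one_le_exp (2 / a - 1)
    have h2 : a / 2 * (2 / a - 1 + 1) ≤ a / 2 * Real.exp (2 / a - 1) :=
      mul_le_mul_of_nonneg_left h1 (by positivity)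
    have h3 : a / 2 * (2 / a - 1 + 1) = 1 := by
      field_simp
      ring
    linarith
  · exact le_rfl

lemma rate_of_Lam_lt {a τ : ℝ} (ha : 0 < a) (hτ : Lam a < τ) : 1 < rate (min a 2) τ := by
  have h1 := Lam_ge_one ha
  unfold rate
  rcases lt_or_ge a 2 with h | h
  · rw [min_eq_left h.le]
    unfold Lam at hτ
    rw [if_pos h] at hτ
    have h2 : Real.exp (2 / a - 1) < 2 * τ / a := by
      rw [lt_div_iff₀ ha]
      linarith
    have h3 : 2 / a - 1 < Real.log (2 * τ / a) := by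
      rw [Real.lt_log_iff_exp_lt (lt_trans (Real.exp_pos _) h2)]
      exact h2
    have h4 : a / 2 * (2 / a) < a / 2 * (1 + Real.log (2 * τ / a)) :=
      mul_lt_mul_of_pos_left (by linarith) (by positivity)
    have h5 : a / 2 * (2 / a) = 1 := by field_simp
    linarith
  · rw [min_eq_right h]
    have h2 : 0 < Real.log (2 * τ / 2) := by
      apply Real.log_pos
      linarith
    linarith

lemma rate_of_lt_Lam {a τ : ℝ} (ha : 0 < a) (hτ1 : 1 ≤ τ) (hτ : τ < Lam a) :
    a < 2 ∧ 0 < rate a τ ∧ rate a τ < 1 := by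
  unfold Lam at hτ
  split_ifs at hτ with h
  · refine ⟨h, ?_, ?_⟩
    · unfold rate
      have h1 : 0 < Real.log (2 * τ / a) := by
        apply Real.log_pos
        rw [lt_div_iff₀ ha]
        linarith
      positivity
    · unfold rate
      have h2 : 2 * τ / a < Real.exp (2 / a - 1) := by
        rw [div_lt_iff₀ ha]
        linarith
      have h3 : Real.log (2 * τ / a) < 2 / a - 1 := by
        rw [Real.log_lt_iff_lt_exp (by positivity)]
        exact h2
      have h4 : a / 2 * (1 + Real.log (2 * τ / a)) < a / 2 * (2 / a) :=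
        mul_lt_mul_of_pos_left (by linarith) (by positivity)
      have h5 : a / 2 * (2 / a) = 1 := by field_simp
      linarith
  · linarith

end Q167.LI
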