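import Pool.Agent.H50.L.LI.G

/-! # Sparse windows: the threshold for the order of independence -/

set_option autoImplicit false

namespace Q167.LI

open Finset MeasureTheory Filter Topology Q198.CI

lemma tendsto_log_nat : Tendsto (fun n : ℕ => Real.log (n : ℝ)) atTop atTop :=
  Real.tendsto_log_atTop.comp tendsto_natCast_atTop_atTop

/-- sparse windows: sufficiency -/
theorem sparse_upper {Ω : Type*} [MeasurableSpace Ω] (P : Measure Ω) [IsProbabilityMeasure P]
    {E : ℕ → Set Ω} (hE : ∀ n, MeasurableSet (E n)) {κ : ℕ → ℕ}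
    (hind : ∀ T : Finset ℕ, (∀ n ∈ T, 3 ≤ n ∧ T.card ≤ κ n) →
      P (⋂ n ∈ T, E n) = ENNReal.ofReal (∏ n ∈ T, 1 / Real.log n))
    {W : ℕ → Finset ℕ} {L : ℕ → ℝ} {a τ : ℝ} (ha : 0 < a) (hτ : Lam a < τ)
    (hL : Tendsto L atTop atTop)
    (hW : ∀ᶠ n : ℕ in atTop, ∀ y ∈ W n, 3 ≤ y ∧ Real.log y ≤ L n)
    (hcard : ∀ τ' : ℝ, τ' < τ → ∀ᶠ n : ℕ in atTop, τ' * (L n * Real.log n) ≤ (W n).card)
    (hκ : ∀ a' : ℝ, a' < a → ∀ᶠ n : ℕ in atTop, ∀ y ∈ W n, a' * Real.log n ≤ κ y) :
    ∀ᵐ ω ∂P, ∀ᶠ n : ℕ in atTop, ∃ y ∈ W n, ω ∈ E y := by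
  classical
  have hr := rate_of_Lam_lt ha hτ
  have hτ1 : 1 < τ := lt_of_le_of_lt (Lam_ge_one ha) hτ
  set a₀ : ℝ := min a 2 with ha₀
  have ha₀pos : 0 < a₀ := lt_min ha two_pos
  set f₀ : ℝ := rate a₀ τ with hf₀
  -- choose s < 1 with s * f₀ > 1
  obtain ⟨s, hs1, hs0, hsf⟩ : ∃ s : ℝ, s < 1 ∧ 0 < s ∧ 1 < s * f₀ := by
    refine ⟨(1 + 1 / f₀) / 2, ?_, ?_, ?_⟩
    · have : 1 / f₀ < 1 := by
        rw [div_lt_one (by linarith)]
        exact hr
      linarith
    · have : 0 < 1 / f₀ := by positivity
      linarith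
    · have : (1 + 1 / f₀) / 2 * f₀ = (f₀ + 1) / 2 := by
        field_simp
      rw [this]
      linarith
  set a' : ℝ := s * a₀ with ha'
  set τ' : ℝ := s * τ with hτ'
  have ha'pos : 0 < a' := by positivity
  have hτ'pos : 0 < τ' := by positivity
  have ha'a : a' < a := by
    have : a₀ ≤ a := min_le_left _ _
    nlinarith
  have hf : 1 < rate a' τ' := by
    rw [ha', hτ', rate_smul hs0]
    exact hsf
  set f : ℝ := rate a' τ' with hfd
  set β : ℝ := Real.exp 1 * (2 * τ' / a') with hβ
  have hβpos : 0 < β := by positivity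
  have hlogβ : Real.log β = 1 + Real.log (2 * τ' / a') := by
    rw [hβ, Real.log_mul (Real.exp_pos _).ne' (by positivity), Real.log_exp]
  have hfβ : f = a' / 2 * Real.log β := by
    rw [hlogβ, hfd]
    rfl
  have hβ1 : 1 ≤ β := by
    by_contra h
    push Not at h
    have h1 : Real.log β < 0 := Real.log_neg hβpos h
    have : f < 0 := by
      rw [hfβ]
      exact mul_neg_of_pos_of_neg (by positivity) h1
    linarith
  set m : ℕ → ℕ := fun n => ⌊a' / 2 * Real.log n⌋₊ with hm
  set Kq : ℕ → ℝ := fun n => β ^ m n / (Real.exp 1 * m n) with hKq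
  -- eventual conditions
  obtain ⟨τ'', hτ''1, hτ''2⟩ : ∃ τ'' : ℝ, τ' < τ'' ∧ τ'' < τ := exists_between (by
    rw [hτ']
    nlinarith)
  have hev : ∀ᶠ n : ℕ in atTop, (∀ y ∈ W n, 3 ≤ y ∧ Real.log y ≤ L n) ∧
      τ'' * (L n * Real.log n) ≤ (W n).card ∧ (∀ y ∈ W n, a' * Real.log n ≤ κ y) ∧
      a' / 2 ≤ (τ'' - τ') * L n ∧ 1 ≤ L n ∧ 4 / a' ≤ Real.log n ∧ 1 ≤ Real.log n := by
    have h1 : Tendsto (fun n => (τ'' - τ') * L n) atTop atTop :=
      hL.const_mul_atTop (by linarith)
    filter_upwards [hW, hcard τ'' hτ''2, hκ a' ha'a, h1.eventually_ge_atTop (a' / 2),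
      hL.eventually_ge_atTop 1, tendsto_log_nat.eventually_ge_atTop (4 / a'),
      tendsto_log_nat.eventually_ge_atTop 1] with n g1 g2 g3 g4 g5 g6 g7
    exact ⟨g1, g2, g3, g4, g5, g6, g7⟩
  obtain ⟨i₁, hi₁⟩ := eventually_atTop.1 hev
  have hmprop : ∀ n, i₁ ≤ n → 1 ≤ m n ∧ (m n : ℝ) ≤ a' / 2 * Real.log n ∧
      a' / 2 * Real.log n - 1 ≤ m n := by
    intro n hn
    obtain ⟨g1, g2, g3, g4, g5, g6, g7⟩ := hi₁ n hn
    have h1 : (2:ℝ) ≤ a' / 2 * Real.log n := by
      rw [div_le_iff₀ ha'pos] at g6
      linarith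
    refine ⟨?_, Nat.floor_le (by linarith), ?_⟩
    · rw [hm]
      apply Nat.le_floor
      push_cast
      linarith
    · have := Nat.lt_floor_add_one (a' / 2 * Real.log n)
      simp only [hm]
      linarith
  have hmain := scale_upper P hE (W := fun i _ => W i) (cnt := fun _ => 1) (m := m)
    (p := fun n => 1 / Real.log n) (Kq := Kq) (i₁ := i₁)
    (s := fun n => β * Real.exp 1 * (a' / 2) * (2 / (f - 1)) * (n : ℝ) ^ (-((f + 1) / 2)))
    (by
      intro i k n hi _ hn
      have h1 := (hi₁ i hi).1 n hn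
      have h2 := one_lt_log h1.1
      constructor
      · positivity
      · rw [div_lt_one (by linarith)]
        exact h2)
    (by
      intro i k hi _ T hT hTc
      apply hind
      intro n hn
      have hnW := hT hn
      refine ⟨((hi₁ i hi).1 n hnW).1, ?_⟩
      have h1 := (hi₁ i hi).2.2.1 n hnW
      have h2 := (hmprop i hi).2.1
      have h3 : ((2 * m i : ℕ) : ℝ) ≤ κ n := by
        push_cast
        linarith
      exact hTc.trans (by exact_mod_cast h3))
    (by
      intro i hi
      have h1 : (0:ℝ) < m i := by exact_mod_cast (hmprop i hi).1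
      simp only [hKq]
      positivity)
    (by
      intro i k hi _
      obtain ⟨g1, g2, g3, g4, g5, g6, g7⟩ := hi₁ i hi
      obtain ⟨m1, m2, m3⟩ := hmprop i hi
      have hm0 : (0:ℝ) < m i := by exact_mod_cast m1
      have hL0 : 0 < L i := by linarith
      have hmL : (m i : ℝ) ≤ (τ'' - τ') * L i * Real.log i :=
        m2.trans (mul_le_mul_of_nonneg_right g4 (by linarith))
      have hN1 : τ' * (L i * Real.log i) ≤ ((W i).card : ℝ) - m i + 1 := by nlinarith
      have hmN : m i ≤ (W i).card := by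
        have h5 : 0 ≤ τ' * (L i * Real.log i) := by positivity
        have h6 : (m i : ℝ) < ((W i).card : ℝ) + 1 := by linarith
        have h7 : m i < (W i).card + 1 := by exact_mod_cast h6
        omega
      refine le_trans ?_ (sum_ge_choose (ρ := 1 / L i) (by positivity) ?_)
      · refine le_trans ?_ (choose_mul_ge m1 hmN (by positivity))
        simp only [hKq]
        apply div_le_div_of_nonneg_right _ (by positivity)
        apply pow_le_pow_left₀ hβpos.le
        rw [le_div_iff₀ hm0, hβ]
        have h5 : τ' * Real.log i ≤ ((((W i).card : ℕ) : ℝ) - m i + 1) * (1 / L i) := by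
          rw [mul_one_div, le_div_iff₀ hL0]
          linarith
        calc Real.exp 1 * (2 * τ' / a') * m i
            ≤ Real.exp 1 * (2 * τ' / a') * (a' / 2 * Real.log i) :=
              mul_le_mul_of_nonneg_left m2 (by positivity)
          _ = Real.exp 1 * (τ' * Real.log i) := by field_simp
          _ ≤ _ := mul_le_mul_of_nonneg_left h5 (Real.exp_pos _).le
      · intro n hn
        have h1 := g1 n hn
        have h2 := one_lt_log h1.1
        have h3 : 1 / L i ≤ 1 / Real.log n := one_div_le_one_div_of_le (by linarith) h1.2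
        have h4 : 1 / Real.log n ≤ 1 / Real.log n / (1 - 1 / Real.log n) := by
          rw [le_div_iff₀]
          · have : 0 < 1 / Real.log n := by positivity
            nlinarith
          · have : 1 / Real.log n < 1 := by
              rw [div_lt_one (by linarith)]
              exact h2
            linarith
        exact h3.trans h4)
    (by
      apply Summable.mul_left
      rw [Real.summable_nat_rpow]
      linarith)
    (by
      intro i hi
      obtain ⟨g1, g2, g3, g4, g5, g6, g7⟩ := hi₁ i hi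
      obtain ⟨m1, m2, m3⟩ := hmprop i hi
      have hm0 : (0:ℝ) < m i := by exact_mod_cast m1
      have hi0 : (0:ℝ) < i := by
        by_contra h
        have h1 : (i : ℝ) = 0 := le_antisymm (not_lt.1 h) (Nat.cast_nonneg _)
        rw [h1, Real.log_zero] at g7
        linarith
      have hi1 : (1:ℝ) ≤ i := by
        have : 0 < i := by exact_mod_cast hi0
        exact_mod_cast this
      simp only [hKq, Nat.cast_one]
      rw [one_div_div]
      have h1 : (i : ℝ) ^ f ≤ β * β ^ m i := by
        have h2 : (i : ℝ) ^ f = β ^ (a' / 2 * Real.log i) := by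
          rw [Real.rpow_def_of_pos hi0, Real.rpow_def_of_pos hβpos, hfβ]
          congr 1
          ring
        rw [h2, ← pow_succ', ← Real.rpow_natCast]
        apply Real.rpow_le_rpow_of_exponent_le hβ1
        push_cast
        linarith
      have h3 : Real.log i ≤ (i : ℝ) ^ ((f - 1) / 2) / ((f - 1) / 2) :=
        Real.log_le_rpow_div hi0.le (by linarith)
      have h4 : 0 < (i : ℝ) ^ f := Real.rpow_pos_of_pos hi0 _
      have hβm : 0 < β ^ m i := by positivity
      calc Real.exp 1 * m i / β ^ m i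
          ≤ Real.exp 1 * (a' / 2 * Real.log i) / β ^ m i := by
            apply div_le_div_of_nonneg_right _ hβm.le
            exact mul_le_mul_of_nonneg_left m2 (Real.exp_pos _).le
        _ ≤ Real.exp 1 * (a' / 2 * Real.log i) * (β / (i : ℝ) ^ f) := by
            rw [div_eq_mul_one_div]
            apply mul_le_mul_of_nonneg_left _ (by positivity)
            rw [div_le_div_iff₀ hβm h4, one_mul]
            exact h1
        _ ≤ Real.exp 1 * (a' / 2 * ((i : ℝ) ^ ((f - 1) / 2) / ((f - 1) / 2))) *
            (β / (i : ℝ) ^ f) := by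
            apply mul_le_mul_of_nonneg_right _ (by positivity)
            apply mul_le_mul_of_nonneg_left _ (Real.exp_pos _).le
            exact mul_le_mul_of_nonneg_left h3 (by positivity)
        _ = β * Real.exp 1 * (a' / 2) * (2 / (f - 1)) *
            ((i : ℝ) ^ ((f - 1) / 2) / (i : ℝ) ^ f) := by
            have : f - 1 ≠ 0 := by linarith
            field_simp
        _ = _ := by
            rw [← Real.rpow_sub hi0]
            congr 2
            ring)
  filter_upwards [hmain] with ω hω
  filter_upwards [hω] with n hn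
  exact hn 0 one_pos

end Q167.LI
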