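import Pool.Agent.H50.L.LI.H

/-! # Sparse windows: the threshold for the order of independence, necessity -/

set_option autoImplicit false

namespace Q167.LI

open Finset MeasureTheory Filter Topology Q198.CI

/-- the law on one block -/
lemma block_law {I : Finset ℕ} {m : ℕ} {L θ δ : ℝ} (hm : 2 * m ≤ I.card) (hL : 1 < L)
    (hI : ∀ y ∈ I, 3 ≤ y ∧ L ≤ Real.log y) (hθ : 0 ≤ θ)
    (hθ2 : (m : ℝ) ≤ θ ^ 2 * (1 / L * (1 - 1 / L) * ((I.card : ℝ) - m + 1)))
    (hδ0 : 0 ≤ δ) (hδ1 : δ < 1)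
    (hδ : δ * ((1 + m / ((I.card : ℝ) - m + 1)) * KK (I.card + 1) m (1 / (L - 1))) ≤
      1 - θ - m / ((I.card : ℝ) - m + 1)) :
    ∃ w : Finset ℕ → ℝ, IsLaw I (2 * m) cp w ∧ δ ≤ w ∅ := by
  have hL0 : 0 < L := by linarith
  have hp0 : 0 < 1 / L := by positivity
  have hp1 : 1 / L < 1 := by
    rw [div_lt_one hL0]
    exact hL
  have hr : 1 / L / (1 - 1 / L) = 1 / (L - 1) := by
    have : L - 1 ≠ 0 := by linarith
    have h2 : 1 - 1 / L ≠ 0 := by linarith
    field_simp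
  obtain ⟨q, q1, q2, q3⟩ := exists_q_sharp (N := I.card) (m := m) hm (p := 1 / L) (θ := θ) (δ := δ)
    hp0 hp1 hθ (by
      have h1 : (1 - 2 * (1 / L)) ^ 2 ≤ 1 := by
        rw [sq_le_one_iff_abs_le_one, abs_le]
        constructor <;> linarith
      have h2 : (1 - 2 * (1 / L)) ^ 2 * (m : ℝ) ≤ 1 * m :=
        mul_le_mul_of_nonneg_right h1 (Nat.cast_nonneg _)
      linarith) hδ0 hδ1 (by rw [hr]; exact hδ)
  have hl := law_of_q (I := I) rfl q1 q2
  obtain ⟨w, w1, w2⟩ := thin hl hp0 (p' := cp) (fun n _ => cp_nonneg n) (by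
    intro y hy
    obtain ⟨h3, h4⟩ := hI y hy
    unfold cp
    rw [if_pos h3]
    exact one_div_le_one_div_of_le hL0 h4)
  refine ⟨w, w1, le_trans ?_ w2⟩
  simp only [card_empty, Nat.choose_zero_right, Nat.cast_one, div_one]
  exact q3

/-- the law on one block, fully independent -/
lemma block_indep {I : Finset ℕ} {L : ℝ} (K : ℕ) (hL : 1 < L)
    (hI : ∀ y ∈ I, 3 ≤ y ∧ L ≤ Real.log y) :
    ∃ w : Finset ℕ → ℝ, IsLaw I K cp w ∧ Real.exp (-((I.card : ℝ) / (L - 1))) ≤ w ∅ := by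
  refine ⟨_, law_prod I cp_nonneg cp_le_one K, ?_⟩
  rw [prod_empty, one_mul, sdiff_empty]
  have h1 : ∀ y ∈ I, Real.exp (-(1 / (L - 1))) ≤ 1 - cp y := by
    intro y hy
    obtain ⟨h3, h4⟩ := hI y hy
    have h5 : cp y ≤ 1 / L := by
      unfold cp
      rw [if_pos h3]
      exact one_div_le_one_div_of_le (by linarith) h4
    have h6 : Real.exp (-(1 / (L - 1))) ≤ 1 - 1 / L := by
      rw [Real.exp_neg]
      have h7 := Real.add_one_le_exp (1 / (L - 1))
      have h8 : 1 / (L - 1) + 1 = L / (L - 1) := by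
        have : L - 1 ≠ 0 := by linarith
        field_simp
        ring
      rw [h8] at h7
      have h9 : (Real.exp (1 / (L - 1)))⁻¹ ≤ (L / (L - 1))⁻¹ :=
        inv_anti₀ (div_pos (by linarith) (by linarith)) h7
      refine h9.trans (le_of_eq ?_)
      rw [inv_div]
      have : L ≠ 0 := by linarith
      field_simp
    linarith
  have h2 : ∏ _y ∈ I, Real.exp (-(1 / (L - 1))) ≤ ∏ y ∈ I, (1 - cp y) :=
    prod_le_prod (fun y _ => (Real.exp_pos _).le) h1
  refine le_trans (le_of_eq ?_) h2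
  rw [prod_const, ← Real.exp_nat_mul]
  congr 1
  ring

/-- from blocks to a model -/
theorem sparse_model {W : ℕ → Finset ℕ} {κ : ℕ → ℕ} {δ : ℕ → ℝ} {n₁ : ℕ} (K : ℕ → ℕ)
    (hdisj : ∀ n n' y, n₁ ≤ n → n₁ ≤ n' → y ∈ W n → y ∈ W n' → n = n')
    (hκ : ∀ n, n₁ ≤ n → ∀ y ∈ W n, κ y ≤ K n)
    (hlaw : ∀ n, n₁ ≤ n → ∃ w : Finset ℕ → ℝ, IsLaw (W n) (K n) cp w ∧ δ n ≤ w ∅)
    (hδ0 : ∀ n, 0 ≤ δ n) (hdiv : ¬ Summable δ) :
    ∃ (Ω : Type) (_ : MeasurableSpace Ω) (P : Measure Ω) (_ : IsProbabilityMeasure P)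
      (E : ℕ → Set Ω), (∀ n, MeasurableSet (E n)) ∧
      (∀ T : Finset ℕ, (∀ n ∈ T, 3 ≤ n ∧ T.card ≤ κ n) →
        P (⋂ n ∈ T, E n) = ENNReal.ofReal (∏ n ∈ T, 1 / Real.log n)) ∧
      ∀ᵐ ω ∂P, ∃ᶠ n : ℕ in atTop, ∀ y ∈ W n, ω ∉ E y := by
  obtain ⟨Ω, mΩ, P, hP, E, hE, hT, hae⟩ := scale_model (W := fun i _ => W (i + n₁))
    (cnt := fun _ => 1) (κ := κ) (K := fun i => K (i + n₁)) (p := cp) (δ := fun i => δ (i + n₁))
    (by
      intro i k i' k' n hk hk' h1 h2
      have := hdisj (i + n₁) (i' + n₁) n (by omega) (by omega) h1 h2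
      constructor <;> omega)
    cp_nonneg cp_le_one
    (by
      intro i k n _ hn
      exact hκ (i + n₁) (by omega) n hn)
    (fun i => hδ0 _)
    (by
      intro i k _
      exact hlaw (i + n₁) (by omega))
    (fun _ => Set.univ)
    (by
      intro _
      rw [Set.indicator_univ]
      simp only [Nat.cast_one, one_mul]
      rw [summable_nat_add_iff n₁]
      exact hdiv)
  refine ⟨Ω, mΩ, P, hP, E, hE, ?_, ?_⟩
  · intro T hT'
    rw [hT T fun n hn => (hT' n hn).2]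
    congr 1
    refine prod_congr rfl fun n hn => ?_
    unfold cp
    rw [if_pos (hT' n hn).1]
  · filter_upwards [hae] with ω hω
    rw [frequently_atTop]
    intro i₀
    obtain ⟨i, hi, _, k, _, hk⟩ := hω 0 i₀
    exact ⟨i + n₁, by omega, hk⟩

/-- sparse windows: necessity -/
theorem sparse_lower {W : ℕ → Finset ℕ} {L : ℕ → ℝ} {a τ : ℝ} (ha : 0 < a) (hτ0 : 0 < τ)
    (hτ : τ < Lam a) {κ : ℕ → ℕ}
    (hdisj : ∃ n₀ : ℕ, ∀ n n' y, n₀ ≤ n → n₀ ≤ n' → y ∈ W n → y ∈ W n' → n = n')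
    (hL : Tendsto L atTop atTop)
    (hW : ∀ᶠ n : ℕ in atTop, ∀ y ∈ W n, 3 ≤ y ∧ L n ≤ Real.log y)
    (hcardU : ∀ τ' : ℝ, τ < τ' → ∀ᶠ n : ℕ in atTop, ((W n).card : ℝ) ≤ τ' * (L n * Real.log n))
    (hcardL : ∀ τ' : ℝ, τ' < τ → ∀ᶠ n : ℕ in atTop, τ' * (L n * Real.log n) ≤ (W n).card)
    (hκ : ∀ a' : ℝ, a < a' → ∀ᶠ n : ℕ in atTop, ∀ y ∈ W n, (κ y : ℝ) ≤ a' * Real.log n) :
    ∃ (Ω : Type) (_ : MeasurableSpace Ω) (P : Measure Ω) (_ : IsProbabilityMeasure P)
      (E : ℕ → Set Ω), (∀ n, MeasurableSet (E n)) ∧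
      (∀ T : Finset ℕ, (∀ n ∈ T, 3 ≤ n ∧ T.card ≤ κ n) →
        P (⋂ n ∈ T, E n) = ENNReal.ofReal (∏ n ∈ T, 1 / Real.log n)) ∧
      ∀ᵐ ω ∂P, ∃ᶠ n : ℕ in atTop, ∀ y ∈ W n, ω ∉ E y := by
  classical
  obtain ⟨n₀, hn₀⟩ := hdisj
  rcases lt_or_ge τ 1 with hτ1 | hτ1
  · -- full independence
    obtain ⟨τ', hτ'1, hτ'2⟩ := exists_between hτ1
    obtain ⟨τ'', hτ''1, hτ''2⟩ := exists_between hτ'2
    have hev : ∀ᶠ n : ℕ in atTop, (∀ y ∈ W n, 3 ≤ y ∧ L n ≤ Real.log y) ∧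
        ((W n).card : ℝ) ≤ τ' * (L n * Real.log n) ∧ 2 ≤ L n ∧ τ'' / (τ'' - τ') ≤ L n ∧
        1 ≤ n ∧ n₀ ≤ n := by
      filter_upwards [hW, hcardU τ' hτ'1, hL.eventually_ge_atTop 2,
        hL.eventually_ge_atTop (τ'' / (τ'' - τ')), eventually_ge_atTop 1,
        eventually_ge_atTop n₀] with n g1 g2 g3 g4 g5 g6
      exact ⟨g1, g2, g3, g4, g5, g6⟩
    obtain ⟨n₁, hn₁⟩ := eventually_atTop.1 hev
    refine sparse_model (n₁ := n₁) (κ := κ) (δ := fun n => (n : ℝ) ^ (-τ''))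
      (fun n => (W n).sup κ) ?_ ?_ ?_ ?_ ?_
    · intro n n' y h1 h2
      exact hn₀ n n' y (hn₁ n h1).2.2.2.2.2 (hn₁ n' h2).2.2.2.2.2
    · intro n _ y hy
      exact Finset.le_sup (f := κ) hy
    · intro n hn
      obtain ⟨g1, g2, g3, g4, g5, g6⟩ := hn₁ n hn
      obtain ⟨w, w1, w2⟩ := block_indep ((W n).sup κ) (by linarith : (1:ℝ) < L n) g1
      refine ⟨w, w1, le_trans ?_ w2⟩
      have hn0 : (0:ℝ) < n := by exact_mod_cast g5
      rw [Real.rpow_def_of_pos hn0]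
      apply Real.exp_le_exp.2
      have hlog : 0 ≤ Real.log n := Real.log_nonneg (by exact_mod_cast g5)
      have h1 : ((W n).card : ℝ) / (L n - 1) ≤ τ'' * Real.log n := by
        rw [div_le_iff₀ (by linarith)]
        refine g2.trans ?_
        rw [div_le_iff₀ (by linarith)] at g4
        have h2 : τ' * L n ≤ τ'' * (L n - 1) := by linarith
        calc τ' * (L n * Real.log n) = (τ' * L n) * Real.log n := by ring
          _ ≤ (τ'' * (L n - 1)) * Real.log n := mul_le_mul_of_nonneg_right h2 hlog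
          _ = _ := by ring
      linarith
    · intro n
      exact Real.rpow_nonneg (Nat.cast_nonneg _) _
    · rw [Real.summable_nat_rpow]
      linarith
  · obtain ⟨ha2, hf0, hf1⟩ := rate_of_lt_Lam ha hτ1 hτ
    set f₀ : ℝ := rate a τ with hf₀
    have hq1 : a / (2 * τ) < 1 := by
      rw [div_lt_one (by positivity)]
      linarith
    have hq0 : 0 < a / (2 * τ) := by positivity
    obtain ⟨s, hs1, hsf, hsq⟩ : ∃ s : ℝ, 1 < s ∧ s ^ 2 * f₀ < 1 ∧ s ^ 5 * (a / (2 * τ)) < 1 := by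
      have e1 : ∀ᶠ s : ℝ in 𝓝[>] (1:ℝ), s ^ 2 * f₀ < 1 := by
        have h : Tendsto (fun s : ℝ => s ^ 2 * f₀) (𝓝[>] (1:ℝ)) (𝓝 ((1:ℝ) ^ 2 * f₀)) :=
          ((continuous_id.pow 2).mul continuous_const).continuousAt.mono_left nhdsWithin_le_nhds
        exact h.eventually_lt_const (by linarith)
      have e2 : ∀ᶠ s : ℝ in 𝓝[>] (1:ℝ), s ^ 5 * (a / (2 * τ)) < 1 := by
        have h : Tendsto (fun s : ℝ => s ^ 5 * (a / (2 * τ))) (𝓝[>] (1:ℝ))
            (𝓝 ((1:ℝ) ^ 5 * (a / (2 * τ)))) :=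
          ((continuous_id.pow 5).mul continuous_const).continuousAt.mono_left nhdsWithin_le_nhds
        exact h.eventually_lt_const (by linarith)
      have e3 : ∀ᶠ s : ℝ in 𝓝[>] (1:ℝ), 1 < s := self_mem_nhdsWithin
      obtain ⟨s, h1, h2, h3⟩ := (e1.and (e2.and e3)).exists
      exact ⟨s, h3, h1, h2⟩
    have hs0 : 0 < s := by linarith
    set θ : ℝ := Real.sqrt (s ^ 5 * (a / (2 * τ))) with hθ
    have hθ0 : 0 ≤ θ := Real.sqrt_nonneg _
    have hθ2 : θ ^ 2 = s ^ 5 * (a / (2 * τ)) := Real.sq_sqrt (by positivity)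
    have hθ1 : θ < 1 := by
      rw [hθ, show (1:ℝ) = Real.sqrt 1 by rw [Real.sqrt_one]]
      exact Real.sqrt_lt_sqrt (by positivity) hsq
    set m : ℕ → ℕ := fun n => ⌊s * (a / 2) * Real.log n⌋₊ + 1 with hm
    have hev : ∀ᶠ n : ℕ in atTop, (∀ y ∈ W n, 3 ≤ y ∧ L n ≤ Real.log y) ∧
        ((W n).card : ℝ) ≤ s * τ * (L n * Real.log n) ∧
        τ / s * (L n * Real.log n) ≤ (W n).card ∧
        (∀ y ∈ W n, (κ y : ℝ) ≤ s * a * Real.log n) ∧
        1 ≤ (s ^ 2 - s) * (a / 2) * Real.log n ∧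
        1 ≤ s ^ 2 * τ * Real.log n ∧ 2 * s ^ 2 / (s ^ 2 - s) ≤ L n ∧ s ^ 3 * a / τ ≤ L n ∧
        (s ^ 2 * (a / 2)) / (τ / s - τ / s ^ 2) ≤ L n ∧ s / (s - 1) ≤ L n ∧
        s ^ 4 * a / (τ * (1 - θ)) ≤ L n ∧ 1 ≤ n ∧ n₀ ≤ n := by
      have h1 : Tendsto (fun n : ℕ => (s ^ 2 - s) * (a / 2) * Real.log n) atTop atTop :=
        tendsto_log_nat.const_mul_atTop (by
          have : 0 < s ^ 2 - s := by nlinarith
          positivity)
      have h2 : Tendsto (fun n : ℕ => s ^ 2 * τ * Real.log n) atTop atTop :=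
        tendsto_log_nat.const_mul_atTop (by positivity)
      filter_upwards [hW, hcardU (s * τ) (by nlinarith), hcardL (τ / s) (by
        rw [div_lt_iff₀ hs0]
        nlinarith), hκ (s * a) (by nlinarith), h1.eventually_ge_atTop 1, h2.eventually_ge_atTop 1,
        hL.eventually_ge_atTop (2 * s ^ 2 / (s ^ 2 - s)), hL.eventually_ge_atTop (s ^ 3 * a / τ),
        hL.eventually_ge_atTop ((s ^ 2 * (a / 2)) / (τ / s - τ / s ^ 2)),
        hL.eventually_ge_atTop (s / (s - 1)),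
        hL.eventually_ge_atTop (s ^ 4 * a / (τ * (1 - θ))), eventually_ge_atTop 1,
        eventually_ge_atTop n₀] with n g1 g2 g3 g4 g5 g6 g7 g8 g9 g10 g11 g12 g13
      exact ⟨g1, g2, g3, g4, g5, g6, g7, g8, g9, g10, g11, g12, g13⟩
    obtain ⟨n₁, hn₁⟩ := eventually_atTop.1 hev
    refine sparse_model (n₁ := n₁) (κ := κ)
      (δ := fun n => (1 - θ) / 4 * ((n : ℝ) ^ (-(s ^ 2 * f₀))))
      (fun n => 2 * m n) ?_ ?_ ?_ ?_ ?_
    · intro n n' y h1 h2
      exact hn₀ n n' y (hn₁ n h1).2.2.2.2.2.2.2.2.2.2.2.2 (hn₁ n' h2).2.2.2.2.2.2.2.2.2.2.2.2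
    · intro n hn y hy
      obtain ⟨g1, g2, g3, g4, g5, g6, g7, g8, g9, g10, g11, g12, g13⟩ := hn₁ n hn
      have h1 := g4 y hy
      have h2 := Nat.lt_floor_add_one (s * (a / 2) * Real.log n)
      have h3 : (κ y : ℝ) ≤ ((2 * m n : ℕ) : ℝ) := by
        simp only [hm]
        push_cast
        linarith
      exact_mod_cast h3
    · intro n hn
      obtain ⟨g1, g2, g3, g4, g5, g6, g7, g8, g9, g10, g11, g12, g13⟩ := hn₁ n hn
      have hn0 : (0:ℝ) < n := by exact_mod_cast g12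
      have hn1 : (1:ℝ) ≤ n := by exact_mod_cast g12
      have hlog : 0 ≤ Real.log n := Real.log_nonneg hn1
      set ℓ : ℝ := Real.log n with hℓ
      set N : ℕ := (W n).card with hN
      have hsm : 0 < s - 1 := by linarith
      have hss : 0 < s ^ 2 - s := by nlinarith
      have hLbig : 1 < L n := by
        have : 1 < s / (s - 1) := by
          rw [lt_div_iff₀ hsm]
          linarith
        linarith
      have hL0 : 0 < L n := by linarith
      have hℓ0 : 0 < ℓ := by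
        rcases hlog.lt_or_eq with h | h
        · exact h
        · rw [← h, mul_zero] at g6
          linarith
      have hmle : (m n : ℝ) ≤ s ^ 2 * (a / 2) * ℓ := by
        have h1 := Nat.floor_le (show 0 ≤ s * (a / 2) * ℓ by positivity)
        simp only [hm]
        push_cast
        nlinarith
      have hm1 : (1:ℝ) ≤ m n := by
        simp only [hm]
        push_cast
        have : (0:ℝ) ≤ (⌊s * (a / 2) * Real.log n⌋₊ : ℝ) := Nat.cast_nonneg _
        linarith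
      -- `L` inequalities
      rw [div_le_iff₀ hss] at g7
      rw [div_le_iff₀ hτ0] at g8
      have hτs : 0 < τ / s - τ / s ^ 2 := by
        rw [sub_pos]
        apply div_lt_div_of_pos_left hτ0 hs0
        nlinarith
      rw [div_le_iff₀ hτs] at g9
      rw [div_le_iff₀ hsm] at g10
      have h1θ : 0 < 1 - θ := by linarith
      rw [div_le_iff₀ (by positivity)] at g11
      have hNm : τ / s ^ 2 * (L n * ℓ) ≤ (N : ℝ) - m n + 1 := by
        have h1 : s ^ 2 * (a / 2) * ℓ ≤ L n * (τ / s - τ / s ^ 2) * ℓ :=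
          mul_le_mul_of_nonneg_right g9 hlog
        have h2 : L n * (τ / s - τ / s ^ 2) * ℓ = τ / s * (L n * ℓ) - τ / s ^ 2 * (L n * ℓ) := by
          ring
        linarith
      have hNmpos : 0 < (N : ℝ) - m n + 1 := lt_of_lt_of_le (by positivity) hNm
      have h2m : 2 * m n ≤ N := by
        have h1 : 2 * (s ^ 2 * (a / 2) * ℓ) ≤ τ / s * (L n * ℓ) := by
          have h2 : s ^ 3 * a * ℓ ≤ L n * τ * ℓ := mul_le_mul_of_nonneg_right g8 hlog
          have h3 : τ / s * (L n * ℓ) = L n * τ * ℓ / s := by ring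
          rw [h3, le_div_iff₀ hs0]
          calc 2 * (s ^ 2 * (a / 2) * ℓ) * s = s ^ 3 * a * ℓ := by ring
            _ ≤ _ := h2
        have h2 : ((2 * m n : ℕ) : ℝ) ≤ N := by
          push_cast
          linarith
        exact_mod_cast h2
      have hη : (m n : ℝ) / ((N : ℝ) - m n + 1) ≤ (1 - θ) / 2 := by
        rw [div_le_iff₀ hNmpos]
        refine hmle.trans ?_
        have h1 : s ^ 4 * a * ℓ ≤ L n * (τ * (1 - θ)) * ℓ := mul_le_mul_of_nonneg_right g11 hlog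
        have h2 : (1 - θ) / 2 * (τ / s ^ 2 * (L n * ℓ)) ≤ (1 - θ) / 2 * ((N : ℝ) - m n + 1) :=
          mul_le_mul_of_nonneg_left hNm (by linarith)
        refine le_trans ?_ h2
        have h3 : (1 - θ) / 2 * (τ / s ^ 2 * (L n * ℓ)) = L n * (τ * (1 - θ)) * ℓ / (2 * s ^ 2) := by
          field_simp
        rw [h3, le_div_iff₀ (by positivity)]
        calc s ^ 2 * (a / 2) * ℓ * (2 * s ^ 2) = s ^ 4 * a * ℓ := by ring
          _ ≤ _ := h1
      have hη0 : 0 ≤ (m n : ℝ) / ((N : ℝ) - m n + 1) := by positivity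
      have hμ : ((N + 1 : ℕ) : ℝ) * (1 / (L n - 1)) ≤ s ^ 2 * τ * ℓ := by
        rw [mul_one_div, div_le_iff₀ (by linarith)]
        push_cast
        have h1 : 2 * s ^ 2 * (τ * ℓ) ≤ L n * (s ^ 2 - s) * (τ * ℓ) :=
          mul_le_mul_of_nonneg_right g7 (by positivity)
        nlinarith
      have ht1 : a / (2 * τ) ≤ 1 := hq1.le
      have hK : KK (N + 1) (m n) (1 / (L n - 1)) ≤ (n : ℝ) ^ (s ^ 2 * f₀) := by
        have h0 : 0 ≤ 1 / (L n - 1) := by
          apply div_nonneg zero_le_one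
          linarith
        refine (KK_le (t := a / (2 * τ)) h0 hq0 ht1).trans ?_
        have h1 : (1 / (a / (2 * τ))) ^ m n ≤
            Real.exp (s ^ 2 * (a / 2) * ℓ * Real.log (2 * τ / a)) := by
          rw [one_div_div, ← Real.rpow_natCast, Real.rpow_def_of_pos (by positivity)]
          apply Real.exp_le_exp.2
          rw [mul_comm]
          apply mul_le_mul_of_nonneg_right hmle
          apply Real.log_nonneg
          rw [le_div_iff₀ ha]
          linarith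
        have h2 : Real.exp (a / (2 * τ) * (((N + 1 : ℕ) : ℝ) * (1 / (L n - 1)))) ≤
            Real.exp (s ^ 2 * (a / 2) * ℓ) := by
          apply Real.exp_le_exp.2
          refine (mul_le_mul_of_nonneg_left hμ hq0.le).trans (le_of_eq ?_)
          field_simp
        refine (mul_le_mul h1 h2 (Real.exp_pos _).le (Real.exp_pos _).le).trans (le_of_eq ?_)
        rw [← Real.exp_add, Real.rpow_def_of_pos hn0, hf₀]
        unfold rate
        congr 1
        rw [hℓ]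
        ring
      have hnf : 0 < (n : ℝ) ^ (s ^ 2 * f₀) := Real.rpow_pos_of_pos hn0 _
      have hneg : (n : ℝ) ^ (-(s ^ 2 * f₀)) * (n : ℝ) ^ (s ^ 2 * f₀) = 1 := by
        rw [← Real.rpow_add hn0, neg_add_cancel, Real.rpow_zero]
      have hnneg : 0 < (n : ℝ) ^ (-(s ^ 2 * f₀)) := Real.rpow_pos_of_pos hn0 _
      have hnle : (n : ℝ) ^ (-(s ^ 2 * f₀)) ≤ 1 := by
        apply Real.rpow_le_one_of_one_le_of_nonpos hn1
        have : 0 < s ^ 2 * f₀ := by positivity
        linarith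
      have hKnn : 0 ≤ KK (N + 1) (m n) (1 / (L n - 1)) := by
        unfold KK
        refine sum_nonneg fun j _ => mul_nonneg (Nat.cast_nonneg _) (pow_nonneg ?_ _)
        apply div_nonneg zero_le_one
        linarith
      refine block_law (θ := θ) h2m hLbig g1 hθ0 ?_ ?_ ?_ ?_
      · -- theta condition
        rw [← hN, hθ2]
        have h1 : τ / s ^ 3 * ℓ ≤ 1 / L n * (1 - 1 / L n) * ((N : ℝ) - m n + 1) := by
          have h2 : 1 / s ≤ 1 - 1 / L n := by
            rw [one_sub_div hL0.ne', div_le_div_iff₀ hs0 hL0]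
            nlinarith
          calc τ / s ^ 3 * ℓ = 1 / L n * (1 / s) * (τ / s ^ 2 * (L n * ℓ)) := by
                field_simp
            _ ≤ 1 / L n * (1 - 1 / L n) * (τ / s ^ 2 * (L n * ℓ)) := by
                apply mul_le_mul_of_nonneg_right _ (by positivity)
                exact mul_le_mul_of_nonneg_left h2 (by positivity)
            _ ≤ _ := by
                apply mul_le_mul_of_nonneg_left hNm
                have : 0 < 1 / s := by positivity
                have h3 : 0 ≤ 1 - 1 / L n := by linarith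
                positivity
        calc (m n : ℝ) ≤ s ^ 2 * (a / 2) * ℓ := hmle
          _ = s ^ 5 * (a / (2 * τ)) * (τ / s ^ 3 * ℓ) := by field_simp
          _ ≤ _ := mul_le_mul_of_nonneg_left h1 (by positivity)
      · positivity
      · nlinarith
      · rw [← hN]
        have h1 : (1 + (m n : ℝ) / ((N : ℝ) - m n + 1)) * KK (N + 1) (m n) (1 / (L n - 1)) ≤
            2 * (n : ℝ) ^ (s ^ 2 * f₀) := by
          apply mul_le_mul _ hK hKnn (by norm_num)
          linarith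
        calc (1 - θ) / 4 * (n : ℝ) ^ (-(s ^ 2 * f₀)) *
              ((1 + (m n : ℝ) / ((N : ℝ) - m n + 1)) * KK (N + 1) (m n) (1 / (L n - 1)))
            ≤ (1 - θ) / 4 * (n : ℝ) ^ (-(s ^ 2 * f₀)) * (2 * (n : ℝ) ^ (s ^ 2 * f₀)) :=
              mul_le_mul_of_nonneg_left h1 (by positivity)
          _ = (1 - θ) / 2 * ((n : ℝ) ^ (-(s ^ 2 * f₀)) * (n : ℝ) ^ (s ^ 2 * f₀)) := by ring
          _ = (1 - θ) / 2 := by rw [hneg, mul_one]
          _ ≤ _ := by linarith
    · intro n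
      have : 0 ≤ (n : ℝ) ^ (-(s ^ 2 * f₀)) := Real.rpow_nonneg (Nat.cast_nonneg _) _
      have h2 : 0 ≤ (1 - θ) / 4 := by linarith
      positivity
    · intro hsum
      have h1 : 0 < (1 - θ) / 4 := by linarith
      rw [summable_mul_left_iff h1.ne', Real.summable_nat_rpow] at hsum
      linarith

end Q167.LI
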