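import Pool.Agent.H50.L.LI.K

/-! # The gap function, and the upper bound -/

set_option autoImplicit false

namespace Q167.LI

open Finset MeasureTheory Filter Topology Q198.CI

/-- the gap function for order `2 m` or `2 m + 1` -/
noncomputable def GG (m : ℕ) (x : ℝ) : ℝ :=
  (m / Real.exp 1 * x ^ (1 / (m : ℝ)) * Real.log x) ^ ((m : ℝ) / (m + 1))

lemma GG_pos {m : ℕ} {x : ℝ} (hm : 1 ≤ m) (hx : 1 < x) : 0 < GG m x := by
  have hm' : (0:ℝ) < m := by exact_mod_cast hm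
  have h1 : 0 < x ^ (1 / (m : ℝ)) := Real.rpow_pos_of_pos (by linarith) _
  have h2 : 0 < Real.log x := Real.log_pos hx
  have h3 := Real.exp_pos 1
  unfold GG
  exact Real.rpow_pos_of_pos (by positivity) _

lemma GG_pow {m : ℕ} {x : ℝ} (hm : 1 ≤ m) (hx : 1 < x) :
    GG m x ^ (m + 1) = x * (m / Real.exp 1 * Real.log x) ^ m := by
  have hm' : (0:ℝ) < m := by exact_mod_cast hm
  have hx0 : 0 < x := by linarith
  have h1 : 0 < x ^ (1 / (m : ℝ)) := Real.rpow_pos_of_pos hx0 _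
  have h2 : 0 < Real.log x := Real.log_pos hx
  have h3 := Real.exp_pos 1
  unfold GG
  rw [← Real.rpow_natCast, ← Real.rpow_mul (by positivity)]
  have e1 : (m : ℝ) / (m + 1) * ((m + 1 : ℕ) : ℝ) = (m : ℝ) := by
    push_cast
    field_simp
  rw [e1, Real.rpow_natCast]
  have e2 : (x ^ (1 / (m : ℝ))) ^ m = x := by
    rw [← Real.rpow_natCast, ← Real.rpow_mul hx0.le, one_div_mul_cancel hm'.ne', Real.rpow_one]
  calc (m / Real.exp 1 * x ^ (1 / (m : ℝ)) * Real.log x) ^ m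
      = (x ^ (1 / (m : ℝ))) ^ m * (m / Real.exp 1 * Real.log x) ^ m := by
        rw [← mul_pow]
        congr 1
        ring
    _ = _ := by rw [e2]

lemma le_GG {m : ℕ} {x A : ℝ} (hm : 1 ≤ m) (hx : 1 < x) (hA : 0 ≤ A)
    (h : A ^ (m + 1) ≤ x * (m / Real.exp 1 * Real.log x) ^ m) : A ≤ GG m x := by
  rw [← GG_pow hm hx] at h
  exact (pow_le_pow_iff_left₀ hA (GG_pos hm hx).le (Nat.succ_ne_zero m)).1 h

lemma GG_le {m : ℕ} {x A : ℝ} (hm : 1 ≤ m) (hx : 1 < x) (hA : 0 ≤ A)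
    (h : x * (m / Real.exp 1 * Real.log x) ^ m ≤ A ^ (m + 1)) : GG m x ≤ A := by
  rw [← GG_pow hm hx] at h
  exact (pow_le_pow_iff_left₀ (GG_pos hm hx).le hA (Nat.succ_ne_zero m)).1 h

lemma GG_mono {m : ℕ} {x y : ℝ} (hm : 1 ≤ m) (hx : 1 < x) (hxy : x ≤ y) : GG m x ≤ GG m y := by
  have hm' : (0:ℝ) < m := by exact_mod_cast hm
  have h3 := Real.exp_pos 1
  apply GG_le hm hx (GG_pos hm (by linarith)).le
  rw [GG_pow hm (by linarith)]
  have h1 : 0 ≤ Real.log x := (Real.log_pos hx).le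
  have h2 : Real.log x ≤ Real.log y := Real.log_le_log (by linarith) hxy
  apply mul_le_mul hxy _ (by positivity) (by linarith)
  apply pow_le_pow_left₀ (by positivity)
  exact mul_le_mul_of_nonneg_left h2 (by positivity)

/-- a lower and an upper bound -/
lemma GG_bounds {m : ℕ} {x : ℝ} (hm : 1 ≤ m) (hx : 1 < x)
    (h : m / Real.exp 1 * Real.log x ≤ x) :
    m / Real.exp 1 * Real.log x ≤ GG m x ∧ GG m x ≤ x := by
  have hm' : (0:ℝ) < m := by exact_mod_cast hm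
  have h3 := Real.exp_pos 1
  have h1 : 0 ≤ Real.log x := (Real.log_pos hx).le
  constructor
  · apply le_GG hm hx (by positivity)
    rw [pow_succ, mul_comm]
    exact mul_le_mul_of_nonneg_right h (by positivity)
  · apply GG_le hm hx (by linarith)
    rw [pow_succ, mul_comm]
    apply mul_le_mul_of_nonneg_right _ (by linarith)
    exact pow_le_pow_left₀ (by positivity) h _

/-- Borel-Cantelli for a countable family of finite sets of windows -/
theorem fam_upper {ι : Type*} [Countable ι] {Ω : Type*} [MeasurableSpace Ω] (P : Measure Ω)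
    [IsProbabilityMeasure P] {E : ℕ → Set Ω} (hE : ∀ n, MeasurableSet (E n))
    {W : ι → ℕ → Finset ℕ} {A : ι → Finset ℕ} {m : ι → ℕ} {p : ℕ → ℝ} {Kq : ι → ℝ}
    (hp : ∀ i, ∀ k ∈ A i, ∀ n ∈ W i k, 0 ≤ p n ∧ p n < 1)
    (hT : ∀ i, ∀ k ∈ A i, ∀ T ⊆ W i k, T.card ≤ 2 * m i →
      P (⋂ n ∈ T, E n) = ENNReal.ofReal (∏ n ∈ T, p n))
    (hK0 : ∀ i, (A i).Nonempty → 0 < Kq i)
    (hK : ∀ i, ∀ k ∈ A i,
      Kq i ≤ ∑ T ∈ (W i k).powerset with T.card ≤ m i, ∏ n ∈ T, (p n / (1 - p n)))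
    {s : ι → ℝ} (hs : Summable s) (_hs0 : ∀ i, 0 ≤ s i)
    (hle : ∀ i, (A i).Nonempty → ((A i).card : ℝ) / Kq i ≤ s i) :
    ∀ᵐ ω ∂P, {i | ∃ k ∈ A i, ∀ n ∈ W i k, ω ∉ E n}.Finite := by
  classical
  set bad : ι → Set Ω := fun i => ⋃ k ∈ A i, ⋂ n ∈ W i k, (E n)ᶜ with hbad
  have hbound : ∀ i, P (bad i) ≤ ENNReal.ofReal (s i) := by
    intro i
    rcases (A i).eq_empty_or_nonempty with h0 | h0
    · simp [hbad, h0]
    · simp only [hbad]
      refine (measure_biUnion_finset_le _ _).trans ?_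
      have h1 : ∑ k ∈ A i, P (⋂ n ∈ W i k, (E n)ᶜ) ≤ ∑ k ∈ A i, ENNReal.ofReal (1 / Kq i) := by
        refine sum_le_sum fun k hk => ?_
        exact window_upper P hE (fun n hn => (hp i k hk n hn).1)
          (fun n hn => (hp i k hk n hn).2) (hT i k hk) (hK0 i h0) (hK i k hk)
      refine h1.trans ?_
      rw [sum_const, nsmul_eq_mul]
      have h2 : (((A i).card : ℕ) : ENNReal) = ENNReal.ofReal ((A i).card : ℝ) :=
        (ENNReal.ofReal_natCast _).symm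
      rw [h2, ← ENNReal.ofReal_mul (Nat.cast_nonneg _)]
      apply ENNReal.ofReal_le_ofReal
      rw [mul_one_div]
      exact hle i h0
  have hsum : ∑' i, P (bad i) ≠ ⊤ :=
    ne_top_of_le_ne_top hs.tsum_ofReal_ne_top (ENNReal.tsum_le_tsum hbound)
  have hbc := ae_finite_setOfPred_mem hsum
  filter_upwards [hbc] with ω hω
  refine hω.subset ?_
  rintro i ⟨k, hk, hkn⟩
  simp only [hbad, Set.mem_ofPred_eq, Set.mem_iUnion]
  refine ⟨k, hk, ?_⟩
  simp only [Set.mem_iInter, Set.mem_compl_iff]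
  exact hkn

end Q167.LI
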