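import Pool.Agent.H50.L.LI.O

/-! # The largest gap for every order of independence: blocks of moderate order -/

set_option autoImplicit false

namespace Q167.LI

open Finset MeasureTheory Filter Topology Q198.CI

/-- length of the blocks -/
noncomputable def wA (m : ℕ) (L : ℝ) : ℕ := ⌊(1 - 1 / Real.sqrt m) * GG m (Real.exp L)⌋₊

/-- mass at the empty set -/
noncomputable def dA (σ : ℝ) (m : ℕ) (L : ℝ) : ℝ :=
  (1 - 1 / L) * ((1 - Real.exp (-σ / 2)) /
    (4 * (Real.exp 1 * (wA m L : ℝ) / (m * (L - 1))) ^ m))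

lemma caseA {σ : ℝ} (hσ : 0 < σ) : ∃ L₀ M₀ : ℝ, ∀ (m : ℕ) (L : ℝ), M₀ ≤ m → L₀ ≤ L →
    (m : ℝ) ≤ L → Real.exp (4 * σ) * (m * L) ≤ GG m (Real.exp L) →
    1 ≤ wA m L ∧ 0 ≤ dA σ m L ∧
    (∀ B : Finset ℕ, B.card = wA m L → (∀ y ∈ B, 3 ≤ y ∧ L ≤ Real.log y) →
      ∃ w' : Finset ℕ → ℝ, IsLaw B (2 * m + 1) cp w' ∧ dA σ m L ≤ w' ∅) ∧
    (∀ D : ℕ, Real.exp (L + 1 / 2) - Real.exp L - 1 ≤ D →
      1 ≤ ((D / wA m L : ℕ) : ℝ) * dA σ m L) := by
  have he := Real.exp_pos 1
  set θ : ℝ := Real.exp (-σ / 2) with hθ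
  have hθ0 : 0 < θ := Real.exp_pos _
  have hθ1 : θ < 1 := by
    rw [hθ, Real.exp_lt_one_iff]
    linarith
  have hθ2 : θ ^ 2 = Real.exp (-σ) := by
    rw [hθ, ← Real.exp_nat_mul]
    congr 1
    push_cast
    ring
  have h1θ : 0 < 1 - θ := by linarith
  have hσ1 : Real.exp (-σ) < 1 := by
    rw [Real.exp_lt_one_iff]
    linarith
  have hdiff : 0 < Real.exp (3 * σ) - Real.exp (2 * σ) := by
    rw [sub_pos]
    apply Real.exp_lt_exp.2
    linarith
  -- thresholds
  have hL1 : ∀ᶠ L : ℝ in atTop, 2 ≤ L ∧ 2 ≤ (Real.exp (3 * σ) - Real.exp (2 * σ)) * L ∧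
      Real.exp (-σ) ≤ 1 - 1 / L ∧ 1 / L ≤ (1 - θ) / 2 ∧
      100 * (L / Real.exp 1 * L) ≤ Real.exp L ∧ 25 ≤ Real.exp L := by
    have t1 : Tendsto (fun L : ℝ => (Real.exp (3 * σ) - Real.exp (2 * σ)) * L) atTop atTop :=
      tendsto_id.const_mul_atTop hdiff
    have t2 : Tendsto (fun L : ℝ => 1 / L) atTop (𝓝 0) := by
      simpa using tendsto_inv_atTop_zero (𝕜 := ℝ)
    have t3 := Real.tendsto_pow_mul_exp_neg_atTop_nhds_zero 2
    have t3' : Tendsto (fun L : ℝ => 100 / Real.exp 1 * (L ^ 2 * Real.exp (-L))) atTop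
        (𝓝 (100 / Real.exp 1 * 0)) := t3.const_mul _
    rw [mul_zero] at t3'
    filter_upwards [eventually_ge_atTop 2, t1.eventually_ge_atTop 2,
      t2.eventually_le_const (show (0:ℝ) < 1 - Real.exp (-σ) by linarith),
      t2.eventually_le_const (show (0:ℝ) < (1 - θ) / 2 by linarith),
      t3'.eventually_le_const zero_lt_one,
      Real.tendsto_exp_atTop.eventually_ge_atTop 25] with L g1 g2 g3 g4 g5 g6
    refine ⟨g1, g2, by linarith, g4, ?_, g6⟩
    rw [Real.exp_neg] at g5
    have hX := Real.exp_pos L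
    have e1 : 100 / Real.exp 1 * (L ^ 2 * (Real.exp L)⁻¹) =
        (100 * (L / Real.exp 1 * L)) / Real.exp L := by
      field_simp
    rw [e1, div_le_one hX] at g5
    exact g5
  have hM1 : ∀ᶠ M : ℝ in atTop, 1 ≤ M ∧ 1 / Real.sqrt M ≤ 1 - Real.exp (-σ) ∧
      32 * Real.exp 2 * Real.exp (-Real.sqrt M) ≤ 1 - θ := by
    have t0 : Tendsto (fun M : ℝ => Real.sqrt M) atTop atTop := Real.tendsto_sqrt_atTop
    have t2 : Tendsto (fun M : ℝ => 1 / Real.sqrt M) atTop (𝓝 0) := by
      refine (tendsto_inv_atTop_zero.comp t0).congr fun M => ?_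
      rw [Function.comp_apply, one_div]
    have t3 : Tendsto (fun M : ℝ => 32 * Real.exp 2 * Real.exp (-Real.sqrt M)) atTop
        (𝓝 (32 * Real.exp 2 * 0)) :=
      (Real.tendsto_exp_neg_atTop_nhds_zero.comp t0).const_mul _
    rw [mul_zero] at t3
    filter_upwards [eventually_ge_atTop 1,
      t2.eventually_le_const (show (0:ℝ) < 1 - Real.exp (-σ) by linarith),
      t3.eventually_le_const h1θ] with M g1 g2 g3
    exact ⟨g1, g2, g3⟩
  obtain ⟨L₀, hL₀⟩ := eventually_atTop.1 hL1
  obtain ⟨M₀, hM₀⟩ := eventually_atTop.1 hM1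
  refine ⟨L₀, M₀, fun m L hm hL hmL hlow => ?_⟩
  obtain ⟨l1, l2, l3, l4, l5, l6⟩ := hL₀ L hL
  obtain ⟨m1, m2, m3⟩ := hM₀ m hm
  have hm1 : 1 ≤ m := by exact_mod_cast m1
  have hm0 : (0:ℝ) < m := by linarith
  have hL0 : 0 < L := by linarith
  have hLm1 : 0 < L - 1 := by linarith
  set X : ℝ := Real.exp L with hX
  have hX1 : 1 < X := Real.one_lt_exp_iff.2 hL0
  have hX0 : 0 < X := by linarith
  set g : ℝ := GG m X with hg
  have hg0 : 0 < g := GG_pos hm1 hX1
  have hgpow : g ^ (m + 1) = X * (m / Real.exp 1 * L) ^ m := by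
    rw [hg, GG_pow hm1 hX1, hX, Real.log_exp]
  set r : ℝ := Real.sqrt m with hr
  have hr1 : 1 ≤ r := by rw [hr, Real.one_le_sqrt]; exact m1
  have hr0 : 0 < r := by linarith
  have hrsq : r * r = m := Real.mul_self_sqrt hm0.le
  set s : ℝ := 1 / r with hs
  have hs0 : 0 < s := by positivity
  have hs1 : s < 1 := by
    have := Real.exp_pos (-σ)
    linarith
  set w : ℕ := wA m L with hw
  have hwle : (w : ℝ) ≤ (1 - s) * g := Nat.floor_le (mul_nonneg (by linarith) hg0.le)
  have hwlt : (1 - s) * g < w + 1 := Nat.lt_floor_add_one _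
  have h3 : Real.exp (3 * σ) * (m * L) ≤ (1 - s) * g := by
    have e1 : Real.exp (3 * σ) = Real.exp (-σ) * Real.exp (4 * σ) := by
      rw [← Real.exp_add]
      congr 1
      ring
    rw [e1, mul_assoc]
    apply mul_le_mul (by linarith) hlow (by positivity) (by linarith)
  have hwm : Real.exp (2 * σ) * (m * L) ≤ (w : ℝ) - m := by
    have h4 : 2 * m ≤ (Real.exp (3 * σ) - Real.exp (2 * σ)) * L * m :=
      mul_le_mul_of_nonneg_right l2 hm0.le
    have e0 : (Real.exp (3 * σ) - Real.exp (2 * σ)) * L * m =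
        Real.exp (3 * σ) * (m * L) - Real.exp (2 * σ) * (m * L) := by ring
    rw [e0] at h4
    linarith
  have hexp2 : 1 ≤ Real.exp (2 * σ) := Real.one_le_exp (by linarith)
  have hmL0 : 0 < (m : ℝ) * L := by positivity
  have hwm' : (m : ℝ) * L ≤ (w : ℝ) - m := (le_mul_of_one_le_left hmL0.le hexp2).trans hwm
  have h2mL : 2 * (m : ℝ) ≤ m * L := by
    have := mul_le_mul_of_nonneg_left l1 hm0.le
    linarith
  have hw3 : 3 * m ≤ w := by
    have : (3:ℝ) * m ≤ w := by linarith
    exact_mod_cast this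
  have hw1 : 1 ≤ w := by omega
  have hw0 : (0:ℝ) < w := by exact_mod_cast hw1
  obtain ⟨N, hN⟩ : ∃ N : ℕ, w = N + 1 := ⟨w - 1, by omega⟩
  have hNr : (N : ℝ) - m + 1 = (w : ℝ) - m := by
    rw [hN]
    push_cast
    ring
  have hwm0 : 0 < (w : ℝ) - m := by linarith
  set B : ℝ := (Real.exp 1 * (w : ℝ) / (m * (L - 1))) ^ m with hB
  have hbase : 1 ≤ Real.exp 1 * (w : ℝ) / (m * (L - 1)) := by
    rw [le_div_iff₀ (by positivity), one_mul]
    have h5 : (1:ℝ) ≤ Real.exp 1 := Real.one_le_exp (by norm_num)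
    have h6 : (w : ℝ) ≤ Real.exp 1 * w := le_mul_of_one_le_left hw0.le h5
    have h7 : (m : ℝ) * (L - 1) = m * L - m := by ring
    linarith
  have hB1 : 1 ≤ B := one_le_pow₀ hbase
  have hB0 : 0 < B := by linarith
  have hKK : KK (N + 1) m (1 / (L - 1)) ≤ B := by
    have ht0 : 0 < m * (L - 1) / (w : ℝ) := by positivity
    have ht1 : m * (L - 1) / (w : ℝ) ≤ 1 := by
      rw [div_le_one hw0]
      have h7 : (m : ℝ) * (L - 1) = m * L - m := by ring
      linarith
    refine (KK_le (by positivity) ht0 ht1).trans (le_of_eq ?_)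
    rw [← hN, hB, one_div_div]
    have e1 : m * (L - 1) / (w : ℝ) * ((w : ℝ) * (1 / (L - 1))) = m := by
      field_simp
    have e2 : Real.exp (m : ℝ) = Real.exp 1 ^ m := by
      rw [← Real.exp_nat_mul, mul_one]
    rw [e1, e2, ← mul_pow]
    congr 1
    ring
  have hη : m / ((N : ℝ) - m + 1) ≤ (1 - θ) / 2 := by
    rw [hNr, div_le_iff₀ hwm0]
    calc (m : ℝ) = 1 / L * (m * L) := by field_simp
      _ ≤ (1 - θ) / 2 * (m * L) := mul_le_mul_of_nonneg_right l4 hmL0.le
      _ ≤ _ := mul_le_mul_of_nonneg_left hwm' (by linarith)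
  have hη0 : 0 ≤ m / ((N : ℝ) - m + 1) := by
    rw [hNr]
    positivity
  have hL11 : 0 ≤ 1 - 1 / L := by
    have := Real.exp_pos (-σ)
    linarith
  refine ⟨hw1, ?_, ?_, ?_⟩
  · unfold dA
    rw [← hw, ← hB]
    positivity
  · intro Bs hBc hBy
    obtain ⟨w', w1, w2⟩ := block_law_odd (I := Bs) (N := N) (m := m) (L := L) (θ := θ)
      (δ := (1 - θ) / (4 * B)) (by rw [hBc, ← hN]) (by omega) (by linarith) hBy hθ0.le
      (by
        rw [hθ2, hNr]
        have e1 : Real.exp (-σ) * (Real.exp (-σ) * Real.exp (2 * σ)) = 1 := by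
          rw [← Real.exp_add, ← Real.exp_add]
          norm_num
          ring
        have hes := Real.exp_pos (-σ)
        calc (m : ℝ) = Real.exp (-σ) * (1 / L * Real.exp (-σ) * (Real.exp (2 * σ) * (m * L))) := by
              have : Real.exp (-σ) * (1 / L * Real.exp (-σ) * (Real.exp (2 * σ) * (m * L))) =
                (Real.exp (-σ) * (Real.exp (-σ) * Real.exp (2 * σ))) * (1 / L * (m * L)) := by
                ring
              rw [this, e1]
              field_simp
          _ ≤ Real.exp (-σ) * (1 / L * (1 - 1 / L) * ((w : ℝ) - m)) := by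
              apply mul_le_mul_of_nonneg_left _ hes.le
              apply mul_le_mul _ hwm (by positivity) (by positivity)
              exact mul_le_mul_of_nonneg_left l3 (by positivity))
      (by positivity)
      (by
        rw [div_lt_one (by positivity)]
        linarith)
      (by
        have h5 : (1 + m / ((N : ℝ) - m + 1)) * KK (N + 1) m (1 / (L - 1)) ≤ 2 * B := by
          apply mul_le_mul (by linarith) hKK _ (by norm_num)
          unfold KK
          positivity
        calc (1 - θ) / (4 * B) * ((1 + m / ((N : ℝ) - m + 1)) * KK (N + 1) m (1 / (L - 1)))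
            ≤ (1 - θ) / (4 * B) * (2 * B) := mul_le_mul_of_nonneg_left h5 (by positivity)
          _ = (1 - θ) / 2 := by
              field_simp
              norm_num
          _ ≤ _ := by linarith)
    refine ⟨w', w1, ?_⟩
    unfold dA
    rw [← hw, ← hB]
    exact w2
  · intro D hD
    -- the count
    have hgX : g ≤ X / 10 := by
      apply GG_le hm1 hX1 (by positivity)
      rw [hX, Real.log_exp, ← hX]
      have h5 : 100 * (m / Real.exp 1 * L) ≤ X := by
        refine le_trans ?_ l5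
        apply mul_le_mul_of_nonneg_left _ (by norm_num)
        apply mul_le_mul_of_nonneg_right _ hL0.le
        exact div_le_div_of_nonneg_right hmL he.le
      have h6 : (100 * (m / Real.exp 1 * L)) ^ m ≤ X ^ m :=
        pow_le_pow_left₀ (by positivity) h5 _
      rw [mul_pow] at h6
      have h7 : (10:ℝ) ^ (m + 1) ≤ 100 ^ m := by
        have : (100:ℝ) ^ m = 10 ^ (2 * m) := by
          rw [pow_mul]
          norm_num
        rw [this]
        exact pow_le_pow_right₀ (by norm_num) (by omega)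
      rw [div_pow, le_div_iff₀ (by positivity), pow_succ X]
      have hP : 0 ≤ (m / Real.exp 1 * L) ^ m := by positivity
      calc X * (m / Real.exp 1 * L) ^ m * 10 ^ (m + 1)
          ≤ X * (m / Real.exp 1 * L) ^ m * 100 ^ m :=
            mul_le_mul_of_nonneg_left h7 (by positivity)
        _ = X * (100 ^ m * (m / Real.exp 1 * L) ^ m) := by ring
        _ ≤ X * X ^ m := mul_le_mul_of_nonneg_left h6 hX0.le
        _ = _ := by ring
    have hwX : (w : ℝ) ≤ X / 10 := by
      have : (1 - s) * g ≤ g := mul_le_of_le_one_left hg0.le (by linarith)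
      linarith
    set q : ℕ := D / w with hq
    have hDq : (D : ℝ) < w * (q + 1) := by
      have := Nat.lt_mul_div_succ D (show 0 < w by omega)
      rw [hq]
      exact_mod_cast this
    have hexph : 3 / 2 * X ≤ Real.exp (L + 1 / 2) := by
      rw [Real.exp_add, ← hX, mul_comm]
      have := Real.add_one_le_exp (1 / 2 : ℝ)
      apply mul_le_mul_of_nonneg_left _ hX0.le
      linarith
    have hqw : X / 4 ≤ q * w := by
      have e0 : (w : ℝ) * (q + 1) = q * w + w := by ring
      rw [e0] at hDq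
      linarith
    -- the product
    have hwB : w * B ≤ Real.exp 2 * Real.exp (-r) * X := by
      have e1 : w * B = (w : ℝ) ^ (m + 1) * (Real.exp 1 / (m * (L - 1))) ^ m := by
        rw [hB, mul_div_right_comm, mul_pow, pow_succ (w : ℝ)]
        ring
      have e2 : (w : ℝ) ^ (m + 1) ≤ (1 - s) ^ (m + 1) * (X * (m / Real.exp 1 * L) ^ m) := by
        rw [← hgpow, ← mul_pow]
        exact pow_le_pow_left₀ hw0.le hwle _
      have e3 : (1 - s) ^ (m + 1) ≤ Real.exp (-r) := by
        have h5 : 1 - s ≤ Real.exp (-s) := by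
          have := Real.add_one_le_exp (-s)
          linarith
        refine (pow_le_pow_left₀ (by linarith) h5 _).trans ?_
        rw [← Real.exp_nat_mul]
        apply Real.exp_le_exp.2
        have h6 : (m : ℝ) * s = r := by
          rw [hs, ← hrsq]
          field_simp
        push_cast
        have h7 : ((m : ℝ) + 1) * -s = -(m * s) - s := by ring
        linarith
      have e4 : (m / Real.exp 1 * L) ^ m * (Real.exp 1 / (m * (L - 1))) ^ m ≤ Real.exp 2 := by
        rw [← mul_pow]
        have h5 : m / Real.exp 1 * L * (Real.exp 1 / (m * (L - 1))) = L / (L - 1) := by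
          field_simp
        rw [h5]
        have h6 : L / (L - 1) ≤ Real.exp (1 / (L - 1)) := by
          have := Real.add_one_le_exp (1 / (L - 1))
          have h7 : L / (L - 1) = 1 / (L - 1) + 1 := by
            field_simp
            ring
          linarith
        refine (pow_le_pow_left₀ (by positivity) h6 m).trans ?_
        rw [← Real.exp_nat_mul]
        apply Real.exp_le_exp.2
        rw [mul_one_div, div_le_iff₀ hLm1]
        linarith
      rw [e1]
      have hQ : 0 ≤ (Real.exp 1 / (m * (L - 1))) ^ m := by positivity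
      calc (w : ℝ) ^ (m + 1) * (Real.exp 1 / (m * (L - 1))) ^ m
          ≤ ((1 - s) ^ (m + 1) * (X * (m / Real.exp 1 * L) ^ m)) *
            (Real.exp 1 / (m * (L - 1))) ^ m := mul_le_mul_of_nonneg_right e2 hQ
        _ = (1 - s) ^ (m + 1) * X * ((m / Real.exp 1 * L) ^ m *
            (Real.exp 1 / (m * (L - 1))) ^ m) := by ring
        _ ≤ Real.exp (-r) * X * Real.exp 2 := by
            apply mul_le_mul _ e4 (by positivity) (by positivity)
            exact mul_le_mul_of_nonneg_right e3 hX0.le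
        _ = _ := by ring
    have hfin : 32 * (w * B) ≤ (1 - θ) * X := by
      have h5 := mul_le_mul_of_nonneg_right m3 hX0.le
      have h6 : 32 * Real.exp 2 * Real.exp (-r) * X = 32 * (Real.exp 2 * Real.exp (-r) * X) := by
        ring
      linarith
    have hL2 : 1 / 2 ≤ 1 - 1 / L := by
      have : 1 / L ≤ 1 / 2 := one_div_le_one_div_of_le two_pos l1
      linarith
    unfold dA
    rw [← hw, ← hB]
    have h8 : 1 ≤ (q : ℝ) * (1 / 2 * ((1 - θ) / (4 * B))) := by
      have e1 : (q : ℝ) * (1 / 2 * ((1 - θ) / (4 * B))) = (q * w) * (1 - θ) / (8 * (w * B)) := by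
        have hBne : B ≠ 0 := hB0.ne'
        have hwne : (w : ℝ) ≠ 0 := hw0.ne'
        have h9 : (q : ℝ) * w * (1 - θ) / (8 * (w * B)) = w * (q * (1 - θ)) / (w * (8 * B)) := by
          congr 1 <;> ring
        rw [h9, mul_div_mul_left _ _ hwne]
        have h10 : (8:ℝ) * B = 2 * (4 * B) := by ring
        rw [h10]
        have h11 : (4:ℝ) * B ≠ 0 := by positivity
        generalize (4:ℝ) * B = y at h11
        field_simp
      rw [e1, le_div_iff₀ (by positivity)]
      have h13 := mul_le_mul_of_nonneg_right hqw h1θ.le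
      have h14 : X / 4 * (1 - θ) = (1 - θ) * X / 4 := by ring
      linarith
    refine h8.trans ?_
    apply mul_le_mul_of_nonneg_left _ (Nat.cast_nonneg _)
    exact mul_le_mul_of_nonneg_right hL2 (by positivity)

end Q167.LI
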