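import Pool.Agent.H50.L.LI.R

/-! # The largest gap for every order of independence: the lower bound -/

set_option autoImplicit false

namespace Q167.LI

open Finset MeasureTheory Filter Topology Q198.CI

lemma ord_tendsto {κ : ℕ → ℕ} (h : Fast κ) : Tendsto (fun n => ord κ n) atTop atTop := by
  have hll : Tendsto (fun n : ℕ => Real.log (Real.log (n : ℝ))) atTop atTop :=
    Real.tendsto_log_atTop.comp tendsto_log_nat
  have h1 : Tendsto (fun n : ℕ => (ord κ n : ℝ)) atTop atTop := by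
    refine tendsto_atTop_mono' _ ?_ hll
    filter_upwards [ord_fast h 1] with n hn
    linarith
  exact tendsto_natCast_atTop_iff.1 h1

/-- what remains to be shown about the lengths of the blocks -/
lemma finish {κ w : ℕ → ℕ} {I : Set ℕ}
    (hlen : ∀ ε : ℝ, 0 < ε → ∀ᶠ i in atTop, i ∈ I → ∀ x, sc i ≤ x → x < sc (i + 1) →
      (1 - ε) * GG (ord κ x) x ≤ w i) (hw : ∀ i ∈ I, 1 ≤ w i)
    (hmod : ∃ (Ω : Type) (_ : MeasurableSpace Ω) (P : Measure Ω) (_ : IsProbabilityMeasure P)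
      (E : ℕ → Set Ω), (∀ n, MeasurableSet (E n)) ∧
      (∀ T : Finset ℕ, (∀ n ∈ T, 3 ≤ n ∧ T.card ≤ κ n) →
        P (⋂ n ∈ T, E n) = ENNReal.ofReal (∏ n ∈ T, 1 / Real.log n)) ∧
      ∀ᵐ ω ∂P, ∀ i₀ : ℕ, ∃ i, i₀ ≤ i ∧ i ∈ I ∧ ∃ x, sc i ≤ x ∧ x + w i ≤ sc (i + 1) ∧
        ∀ n, x < n → n ≤ x + w i → ω ∉ E n) :
    ∃ (Ω : Type) (_ : MeasurableSpace Ω) (P : Measure Ω) (_ : IsProbabilityMeasure P)
      (E : ℕ → Set Ω), (∀ n, MeasurableSet (E n)) ∧
      (∀ T : Finset ℕ, (∀ n ∈ T, 3 ≤ n ∧ T.card ≤ κ n) →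
        P (⋂ n ∈ T, E n) = ENNReal.ofReal (∏ n ∈ T, 1 / Real.log n)) ∧
      ∀ᵐ ω ∂P, ∀ ε : ℝ, 0 < ε → ∃ᶠ x : ℕ in atTop, ∀ n : ℕ, x < n →
        (n : ℝ) ≤ x + (1 - ε) * GG (ord κ x) x → ω ∉ E n := by
  obtain ⟨Ω, mΩ, P, hP, E, hE, hT, hae⟩ := hmod
  refine ⟨Ω, mΩ, P, hP, E, hE, hT, ?_⟩
  filter_upwards [hae] with ω hω
  intro ε hε
  rw [frequently_atTop]
  intro x₀
  obtain ⟨i₀, hi₀⟩ := eventually_atTop.1 ((hlen ε hε).and (tendsto_sc.eventually_ge_atTop x₀))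
  obtain ⟨i, hi, hiI, x, h1, h2, h3⟩ := hω i₀
  obtain ⟨h4, h5⟩ := hi₀ i hi
  refine ⟨x, h5.trans h1, fun n hn hn2 => h3 n hn ?_⟩
  have h6 := h4 hiI x h1 (by have := hw i hiI; omega)
  have h7 : (n : ℝ) ≤ x + w i := by linarith
  exact_mod_cast h7

lemma scale_len (i : ℕ) : Real.exp ((i : ℝ) / 2 + 1 / 2) - Real.exp ((i : ℝ) / 2) - 1 ≤
    ((sc (i + 1) - sc i : ℕ) : ℝ) := by
  rw [Nat.cast_sub (sc_mono (Nat.le_succ i))]
  have h1 := le_sc (i + 1)
  have h2 := sc_lt i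
  push_cast at h1
  have h3 : ((i : ℝ) + 1) / 2 = (i : ℝ) / 2 + 1 / 2 := by ring
  rw [h3] at h1
  linarith

lemma aux_m {ε : ℝ} (hε : 0 < ε) (hε1 : ε < 1) : ∀ᶠ m : ℕ in atTop,
    (1 - ε) * Real.exp (1 / ((m : ℝ) + 1)) + 1 / m + 1 / Real.sqrt m ≤ 1 := by
  have hc : Tendsto (fun m : ℕ => (m : ℝ)) atTop atTop := tendsto_natCast_atTop_atTop
  have t1 : Tendsto (fun m : ℕ => 1 / ((m : ℝ) + 1)) atTop (𝓝 0) :=
    tendsto_one_div_add_atTop_nhds_zero_nat
  have t2 : Tendsto (fun m : ℕ => (1 - ε) * Real.exp (1 / ((m : ℝ) + 1))) atTop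
      (𝓝 ((1 - ε) * Real.exp 0)) := ((Real.continuous_exp.tendsto 0).comp t1).const_mul _
  have t3 : Tendsto (fun m : ℕ => 1 / (m : ℝ)) atTop (𝓝 0) := tendsto_one_div_atTop_nhds_zero_nat
  have t4 : Tendsto (fun m : ℕ => 1 / Real.sqrt (m : ℝ)) atTop (𝓝 0) := by
    refine (tendsto_inv_atTop_zero.comp (Real.tendsto_sqrt_atTop.comp hc)).congr fun M => ?_
    rw [Function.comp_apply, Function.comp_apply, one_div]
  have t5 := (t2.add t3).add t4
  rw [Real.exp_zero, mul_one, add_zero, add_zero] at t5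
  exact t5.eventually_le_const (by linarith)

theorem lower_A {κ : ℕ → ℕ} (hmono : Monotone κ) (hκ : Fast κ) {b' : ℝ} (hb0 : 0 < b')
    (hb2 : b' < 2)
    (hI : ∃ᶠ i : ℕ in atTop, κ (sc (i + 1)) = κ (sc i) ∧ (κ (sc i) : ℝ) ≤ b' * ((i : ℝ) / 2)) :
    ∃ (Ω : Type) (_ : MeasurableSpace Ω) (P : Measure Ω) (_ : IsProbabilityMeasure P)
      (E : ℕ → Set Ω), (∀ n, MeasurableSet (E n)) ∧
      (∀ T : Finset ℕ, (∀ n ∈ T, 3 ≤ n ∧ T.card ≤ κ n) →
        P (⋂ n ∈ T, E n) = ENNReal.ofReal (∏ n ∈ T, 1 / Real.log n)) ∧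
      ∀ᵐ ω ∂P, ∀ ε : ℝ, 0 < ε → ∃ᶠ x : ℕ in atTop, ∀ n : ℕ, x < n →
        (n : ℝ) ≤ x + (1 - ε) * GG (ord κ x) x → ω ∉ E n := by
  classical
  set c : ℝ := 1 - b' / 2 with hc
  have hc0 : 0 < c := by rw [hc]; linarith
  set σ : ℝ := c / 8 with hσd
  have hσ : 0 < σ := by positivity
  obtain ⟨L₀, M₀, hA⟩ := caseA hσ
  set mi : ℕ → ℕ := fun i => κ (sc i) / 2 with hmi
  have hmit : Tendsto mi atTop atTop :=
    tendsto_atTop_mono (fun i => min_le_left _ _) ((ord_tendsto hκ).comp tendsto_sc)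
  have hLt : Tendsto (fun i : ℕ => (i : ℝ) / 2) atTop atTop :=
    tendsto_natCast_atTop_atTop.atTop_div_const two_pos
  have hev : ∀ᶠ L : ℝ in atTop, 2 * Real.log L + 1 ≤ c / 2 * L := by
    have h3 : Real.log =o[atTop] (id : ℝ → ℝ) := Real.isLittleO_log_id_atTop
    have h4 := h3.def (c := c / 8) (by positivity)
    filter_upwards [h4, eventually_ge_atTop (1:ℝ), eventually_ge_atTop (4 / c)] with L h5 h6 h7
    rw [Real.norm_of_nonneg (Real.log_nonneg h6), id, Real.norm_of_nonneg (by linarith)] at h5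
    rw [div_le_iff₀ hc0] at h7
    nlinarith
  obtain ⟨i₁, hi₁⟩ := eventually_atTop.1 ((hmit.eventually_ge_atTop (⌈M₀⌉₊ + 1)).and
    ((hLt.eventually_ge_atTop L₀).and ((hLt.eventually hev).and
    ((tendsto_sc.eventually_ge_atTop 2).and (hLt.eventually_ge_atTop 1)))))
  set I : Set ℕ := {i | i₁ ≤ i ∧ κ (sc (i + 1)) = κ (sc i) ∧
    (κ (sc i) : ℝ) ≤ b' * ((i : ℝ) / 2)} with hId
  -- facts
  have facts : ∀ i ∈ I, M₀ ≤ mi i ∧ 1 ≤ mi i ∧ L₀ ≤ (i : ℝ) / 2 ∧ (mi i : ℝ) ≤ (i : ℝ) / 2 ∧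
      Real.exp (4 * σ) * (mi i * ((i : ℝ) / 2)) ≤ GG (mi i) (Real.exp ((i : ℝ) / 2)) ∧
      2 ≤ sc i ∧ 1 ≤ (i : ℝ) / 2 := by
    rintro i ⟨h1, h2, h3⟩
    obtain ⟨g1, g2, g3, g4, g5⟩ := hi₁ i h1
    have hM : M₀ ≤ mi i := by
      refine (Nat.le_ceil M₀).trans ?_
      exact_mod_cast (by omega : ⌈M₀⌉₊ ≤ mi i)
    have hm1 : 1 ≤ mi i := by omega
    have hm0 : (0:ℝ) < mi i := by exact_mod_cast hm1
    have hmb : (mi i : ℝ) ≤ b' / 2 * ((i : ℝ) / 2) := by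
      have h4 : (mi i : ℝ) ≤ (κ (sc i) : ℝ) / 2 := by
        simp only [hmi]
        exact Nat.cast_div_le.trans (le_of_eq (by norm_num))
      linarith
    have hmL : (mi i : ℝ) ≤ (i : ℝ) / 2 := by nlinarith
    refine ⟨hM, hm1, g2, hmL, ?_, g4, g5⟩
    apply GG_low hm1 (by linarith)
    have h5 : Real.log (mi i) ≤ Real.log ((i : ℝ) / 2) := Real.log_le_log hm0 hmL
    have h6 : ((mi i : ℝ) + 1) * (4 * σ) ≤ ((i : ℝ) / 2 + 1) * (4 * σ) :=
      mul_le_mul_of_nonneg_right (by linarith) (by positivity)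
    have h7 : 4 * σ = c / 2 := by rw [hσd]; ring
    have hc1 : c ≤ 1 := by rw [hc]; linarith
    have h8 : b' / 2 = 1 - c := by rw [hc]; ring
    rw [h7] at h6 ⊢
    rw [h8] at hmb
    nlinarith
  have hinf : ∃ᶠ i in atTop, i ∈ I := by
    refine (hI.and_eventually (eventually_ge_atTop i₁)).mono ?_
    rintro i ⟨⟨h1, h2⟩, h3⟩
    exact ⟨h3, h1, h2⟩
  refine finish (κ := κ) (w := fun i => wA (mi i) ((i : ℝ) / 2)) (I := I) ?_ ?_ ?_
  · intro ε hε
    rcases lt_or_ge ε 1 with hε1 | hε1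
    swap
    · refine Eventually.of_forall fun i hi x hx1 hx2 => ?_
      have h1 : 0 ≤ GG (ord κ x) x := by
        unfold GG
        have h2 : 0 ≤ Real.log (x : ℝ) := by
          apply Real.log_nonneg
          have := one_le_sc i
          exact_mod_cast (by omega : 1 ≤ x)
        positivity
      have h2 : (1 - ε) * GG (ord κ x) x ≤ 0 := mul_nonpos_of_nonpos_of_nonneg (by linarith) h1
      exact h2.trans (Nat.cast_nonneg _)
    · filter_upwards [hmit.eventually (aux_m hε hε1)] with i h1 hi x hx1 hx2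
      obtain ⟨f1, f2, f3, f4, f5, f6, f7⟩ := facts i hi
      have hlogx : (i : ℝ) / 2 ≤ Real.log x := log_ge_of_sc hx1
      have hord : ord κ x = mi i := by
        unfold ord
        have h2 : κ x = κ (sc i) := by
          apply le_antisymm
          · rw [← hi.2.1]
            exact hmono hx2.le
          · exact hmono hx1
        rw [h2]
        apply min_eq_left
        apply Nat.le_floor
        exact f4.trans hlogx
      rw [hord]
      have hm0 : (0:ℝ) < mi i := by exact_mod_cast f2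
      have hL0 : 0 < (i : ℝ) / 2 := by linarith
      have hX1 : 1 < Real.exp ((i : ℝ) / 2) := Real.one_lt_exp_iff.2 hL0
      set g : ℝ := GG (mi i) (Real.exp ((i : ℝ) / 2)) with hg
      have hg0 : 0 < g := GG_pos f2 hX1
      have hgm : (mi i : ℝ) ≤ g := by
        refine le_trans ?_ f5
        have h3 : 1 ≤ Real.exp (4 * σ) := Real.one_le_exp (by positivity)
        have h4 : (mi i : ℝ) ≤ mi i * ((i : ℝ) / 2) := le_mul_of_one_le_right hm0.le f7
        exact h4.trans (le_mul_of_one_le_left (by positivity) h3)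
      have h2 : GG (mi i) x ≤ Real.exp (1 / ((mi i : ℝ) + 1)) * g := by
        apply GG_range f2 hL0 f4
        · have : 2 ≤ x := by omega
          exact_mod_cast (by omega : 1 < x)
        · have h3 := lt_sc hx2
          push_cast at h3
          have h4 : ((i : ℝ) + 1) / 2 = (i : ℝ) / 2 + 1 / 2 := by ring
          rw [h4] at h3
          exact h3.le
      have h3 : (1 - ε) * GG (mi i) x ≤ (1 - ε) * (Real.exp (1 / ((mi i : ℝ) + 1)) * g) :=
        mul_le_mul_of_nonneg_left h2 (by linarith)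
      have h4 : (1 - 1 / Real.sqrt (mi i)) * g - 1 ≤ wA (mi i) ((i : ℝ) / 2) := by
        have := Nat.lt_floor_add_one ((1 - 1 / Real.sqrt (mi i)) * GG (mi i) (Real.exp ((i : ℝ) / 2)))
        unfold wA
        linarith
      refine le_trans ?_ h4
      have h5 := mul_le_mul_of_nonneg_right h1 hg0.le
      have h6 : 1 ≤ 1 / (mi i : ℝ) * g := by
        rw [div_mul_eq_mul_div, one_mul, le_div_iff₀ hm0]
        linarith
      have e1 : ((1 - ε) * Real.exp (1 / ((mi i : ℝ) + 1)) + 1 / (mi i : ℝ) +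
          1 / Real.sqrt (mi i : ℝ)) * g = (1 - ε) * (Real.exp (1 / ((mi i : ℝ) + 1)) * g) +
          1 / (mi i : ℝ) * g + 1 / Real.sqrt (mi i) * g := by ring
      rw [e1] at h5
      have e2 : (1 - 1 / Real.sqrt (mi i)) * g = g - 1 / Real.sqrt (mi i) * g := by ring
      rw [e2]
      linarith
  · intro i hi
    obtain ⟨f1, f2, f3, f4, f5, f6, f7⟩ := facts i hi
    exact (hA (mi i) ((i : ℝ) / 2) f1 f3 f4 f5).1
  · refine scales_glue (κ := κ) (a := sc) (w := fun i => wA (mi i) ((i : ℝ) / 2))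
      (K := fun i => 2 * mi i + 1)
      (δ := fun i => if i ∈ I then dA σ (mi i) ((i : ℝ) / 2) else 0) I sc_mono ?_ ?_ ?_ ?_ ?_ hinf
    · intro i hi
      obtain ⟨f1, f2, f3, f4, f5, f6, f7⟩ := facts i hi
      exact (hA (mi i) ((i : ℝ) / 2) f1 f3 f4 f5).1
    · intro i hi n _ hn
      have h1 : κ n ≤ κ (sc i) := by
        rw [← hi.2.1]
        exact hmono hn
      simp only [hmi]
      omega
    · intro i
      split_ifs with hi
      · obtain ⟨f1, f2, f3, f4, f5, f6, f7⟩ := facts i hi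
        exact (hA (mi i) ((i : ℝ) / 2) f1 f3 f4 f5).2.1
      · exact le_rfl
    · intro i hi B hBc hB
      obtain ⟨f1, f2, f3, f4, f5, f6, f7⟩ := facts i hi
      rw [if_pos hi]
      refine (hA (mi i) ((i : ℝ) / 2) f1 f3 f4 f5).2.2.1 B hBc fun y hy => ?_
      have h1 := (hB y hy).1
      exact ⟨by omega, log_ge_of_sc h1.le⟩
    · intro i hi
      obtain ⟨f1, f2, f3, f4, f5, f6, f7⟩ := facts i hi
      rw [if_pos hi]
      exact (hA (mi i) ((i : ℝ) / 2) f1 f3 f4 f5).2.2.2 _ (scale_len i)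

end Q167.LI
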